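import Pool.Agent.H179_KR.Host2

/-! The ultrafilter argument. -/

namespace Pool.Agent.H179_KR

open Finset Filter

attribute [local instance] Classical.propDecidable

lemma exists_ultra {X : Type*} (L : Set X → Prop) (hu : L Set.univ) (he : ¬ L ∅)
    (hm : ∀ S T, S ⊆ T → L S → L T) (hs : ∀ S T, L (S ∪ T) → L S ∨ L T) :
    ∃ 𝒲 : Ultrafilter X, ∀ S ∈ 𝒲, L S := by
  let F : Filter X :=
    { sets := {S | ¬ L Sᶜ}
      univ_sets := by
        show ¬ L (Set.univ)ᶜ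
        rwa [Set.compl_univ]
      sets_of_superset := by
        intro S T hS hST hT
        exact hS (hm _ _ (Set.compl_subset_compl.mpr hST) hT)
      inter_sets := by
        intro S T hS hT h
        rw [Set.compl_inter] at h
        rcases hs _ _ h with h | h
        · exact hS h
        · exact hT h }
  have hF : F.NeBot := by
    rw [Filter.neBot_iff]
    intro h
    have h1 : (∅ : Set X) ∈ F := by rw [h]; trivial
    have h2 : ¬ L (∅ : Set X)ᶜ := h1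
    rw [Set.compl_empty] at h2
    exact h2 hu
  refine ⟨Ultrafilter.of F, ?_⟩
  intro S hS
  by_contra hL
  have h1 : Sᶜ ∈ F := by
    show ¬ L Sᶜᶜ
    rwa [compl_compl]
  have h2 : Sᶜ ∈ Ultrafilter.of F := Ultrafilter.of_le F h1
  exact (Ultrafilter.compl_mem_iff_notMem.mp h2) hS

lemma exists_color {X : Type*} {c : ℕ} (𝒲 : Ultrafilter X) (f : X → Fin c) :
    ∃ a, ∀ᶠ p in (𝒲 : Filter X), f p = a := by
  obtain ⟨a, ha⟩ := Ultrafilter.eq_pure_of_finite (𝒲.map f)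
  refine ⟨a, ?_⟩
  have h : ({a} : Set (Fin c)) ∈ 𝒲.map f := by
    rw [ha]; exact Ultrafilter.mem_pure.mpr rfl
  exact h

/-- the nonprincipal ultrafilter used for limits -/
noncomputable def U : Ultrafilter ℕ := Filter.hyperfilter ℕ

lemma U_ge (a : ℕ) : ∀ᶠ m in (U : Filter ℕ), a ≤ m := by
  have h : (U : Filter ℕ) ≤ Filter.atTop := by
    rw [← Nat.cofinite_eq_atTop]; exact Filter.hyperfilter_le_cofinite
  exact h (Filter.eventually_ge_atTop a)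

/-- index points of the big ultrafilter -/
abbrev Pt (N : ℕ → ℕ) := ℕ × (Σ m, Finset (Fin (N m)))

/-- largeness of a family of index points -/
def LL {s : ℕ} (N : ℕ → ℕ) (x : ∀ m, Fin (N m) → Fin s) (δ : ℕ → ℕ → ℝ) (y : Finset (Fin s))
    (S : Set (Pt N)) : Prop :=
  ∃ j : ℕ, ∀ᶠ l in (U : Filter ℕ), ∀ᶠ m in (U : Filter ℕ),
    Big (x m) y (δ m l) (δ m l / 2 ^ j) {A | (l, (⟨m, A⟩ : Σ m, Finset (Fin (N m)))) ∈ S}

theorem exists_W {s : ℕ} (N : ℕ → ℕ) (x : ∀ m, Fin (N m) → Fin s) (δ : ℕ → ℕ → ℝ)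
    (hδ : ∀ m l, 0 < δ m l) (y : Finset (Fin s)) :
    ∃ 𝒲 : Ultrafilter (Pt N), ∀ S ∈ 𝒲, LL N x δ y S := by
  apply exists_ultra
  · refine ⟨0, ?_⟩
    refine Filter.Eventually.of_forall (fun l => Filter.Eventually.of_forall (fun m => ?_))
    have := Big_start (x m) y (δ m l)
    rw [pow_zero, div_one]
    exact this
  · rintro ⟨j, hj⟩
    obtain ⟨l, hl⟩ := hj.exists
    obtain ⟨m, hm⟩ := hl.exists
    obtain ⟨A, hA, _⟩ := Big_nonempty (by have := hδ m l; positivity) hm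
    exact hA
  · rintro S T hST ⟨j, hj⟩
    refine ⟨j, ?_⟩
    filter_upwards [hj] with l hl
    filter_upwards [hl] with m hm
    exact Big_mono (fun A hA => hST hA) hm
  · rintro S T ⟨j, hj⟩
    have h1 : ∀ᶠ l in (U : Filter ℕ),
        (∀ᶠ m in (U : Filter ℕ), Big (x m) y (δ m l) (δ m l / 2 ^ (j + 1))
          {A | (l, (⟨m, A⟩ : Σ m, Finset (Fin (N m)))) ∈ S}) ∨
        (∀ᶠ m in (U : Filter ℕ), Big (x m) y (δ m l) (δ m l / 2 ^ (j + 1))
          {A | (l, (⟨m, A⟩ : Σ m, Finset (Fin (N m)))) ∈ T}) := by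
      filter_upwards [hj] with l hl
      rw [← Ultrafilter.eventually_or]
      filter_upwards [hl] with m hm
      have := Big_union (F := {A | (l, (⟨m, A⟩ : Σ m, Finset (Fin (N m)))) ∈ S})
        (G := {A | (l, (⟨m, A⟩ : Σ m, Finset (Fin (N m)))) ∈ T}) (by have := hδ m l; positivity) hm
      rw [pow_succ, ← div_div]
      exact this
    rw [Ultrafilter.eventually_or] at h1
    rcases h1 with h | h
    · exact Or.inl ⟨j + 1, h⟩
    · exact Or.inr ⟨j + 1, h⟩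

/-- objects: sequences of sets that are nearly the full region `w` -/
def IsObj {s : ℕ} (N : ℕ → ℕ) (x : ∀ m, Fin (N m) → Fin s) (δ : ℕ → ℕ → ℝ) (w : Finset (Fin s))
    (B : ∀ m, Finset (Fin (N m))) : Prop :=
  ∃ l, ∀ᶠ m in (U : Filter ℕ), B m ⊆ W (x m) w ∧ ((W (x m) w \ B m).card : ℝ) ≤ 2 * δ m l * N m

/-- the colour seen from the root -/
noncomputable def Psi {c : ℕ} {N : ℕ → ℕ} (χ : ∀ m, Finset (Fin (N m)) → Finset (Fin (N m)) → Fin c)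
    (𝒲 : Ultrafilter (Pt N)) (B : ∀ m, Finset (Fin (N m))) : Fin c :=
  Classical.choose (exists_color 𝒲 (fun p => χ p.2.1 (B p.2.1) p.2.2))

lemma Psi_spec {c : ℕ} {N : ℕ → ℕ} (χ : ∀ m, Finset (Fin (N m)) → Finset (Fin (N m)) → Fin c)
    (𝒲 : Ultrafilter (Pt N)) (B : ∀ m, Finset (Fin (N m))) :
    ∀ᶠ p in (𝒲 : Filter (Pt N)), χ p.2.1 (B p.2.1) p.2.2 = Psi χ 𝒲 B :=
  Classical.choose_spec (exists_color 𝒲 (fun p => χ p.2.1 (B p.2.1) p.2.2))

/-- the ambient type of objects with regions -/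
abbrev RO (s : ℕ) (N : ℕ → ℕ) := Finset (Fin s) × (∀ m, Finset (Fin (N m)))

lemma common_level {s : ℕ} (N : ℕ → ℕ) (x : ∀ m, Fin (N m) → Fin s) (δ : ℕ → ℕ → ℝ)
    (hmono : ∀ m l l', l ≤ l' → l' ≤ m → δ m l ≤ δ m l') (𝒜 : List (RO s N))
    (hA : ∀ p ∈ 𝒜, IsObj N x δ p.1 p.2) :
    ∃ l₀, ∀ l, l₀ ≤ l → ∀ᶠ m in (U : Filter ℕ), ∀ p ∈ 𝒜,
      p.2 m ⊆ W (x m) p.1 ∧ ((W (x m) p.1 \ p.2 m).card : ℝ) ≤ 2 * δ m l * N m := by
  induction 𝒜 with
  | nil => exact ⟨0, fun l _ => Filter.Eventually.of_forall (fun m p hp => absurd hp List.not_mem_nil)⟩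
  | cons q 𝒜 ih =>
    obtain ⟨l₀, h₀⟩ := ih (fun p hp => hA p (List.mem_cons_of_mem _ hp))
    obtain ⟨l₁, h₁⟩ := hA q List.mem_cons_self
    refine ⟨max l₀ l₁, ?_⟩
    intro l hl
    filter_upwards [h₀ l (le_trans (le_max_left _ _) hl), h₁, U_ge l] with m hm1 hm2 hm3
    intro p hp
    rcases List.mem_cons.mp hp with rfl | hp
    · refine ⟨hm2.1, hm2.2.trans ?_⟩
      have := hmono m l₁ l (le_trans (le_max_right _ _) hl) hm3
      have hN : (0 : ℝ) ≤ N m := by positivity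
      apply mul_le_mul_of_nonneg_right _ hN
      linarith
    · exact hm1 p hp

theorem transport {c s : ℕ} (N : ℕ → ℕ) (χ : ∀ m, Finset (Fin (N m)) → Finset (Fin (N m)) → Fin c)
    (x : ∀ m, Fin (N m) → Fin s) (δ : ℕ → ℕ → ℝ) (hδ : ∀ m l, 0 < δ m l)
    (hmono : ∀ m l l', l ≤ l' → l' ≤ m → δ m l ≤ δ m l') (ξ : ℝ)
    (hgood : ∀ m, Good m (δ m) ξ (χ m) (x m)) (y : Finset (Fin s)) (𝒲 : Ultrafilter (Pt N))
    (hW : ∀ S ∈ 𝒲, LL N x δ y S) (𝒜 : List (RO s N)) (w : Finset (Fin s)) (hyw : y.card = w.card)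
    (hA : ∀ p ∈ 𝒜, IsObj N x δ p.1 p.2 ∧ Disjoint p.1 y ∧ Disjoint p.1 w) :
    ∃ B, IsObj N x δ w B ∧ ∀ p ∈ 𝒜, ∀ᶠ m in (U : Filter ℕ), χ m (p.2 m) (B m) = Psi χ 𝒲 p.2 := by
  have hc : 0 < c := by
    by_contra h
    have h0 : c = 0 := by omega
    subst h0
    exact (Psi χ 𝒲 (fun _ => ∅)).elim0
  obtain ⟨l₀, h₀⟩ := common_level N x δ hmono 𝒜 (fun p hp => (hA p hp).1)
  have hS : {q : Pt N | ∀ p ∈ 𝒜, χ q.2.1 (p.2 q.2.1) q.2.2 = Psi χ 𝒲 p.2} ∈ 𝒲 := by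
    have : ∀ᶠ q in (𝒲 : Filter (Pt N)), ∀ p ∈ 𝒜, χ q.2.1 (p.2 q.2.1) q.2.2 = Psi χ 𝒲 p.2 := by
      clear hA h₀
      induction 𝒜 with
      | nil => exact Filter.Eventually.of_forall (fun m p hp => absurd hp List.not_mem_nil)
      | cons r 𝒜 ih =>
        filter_upwards [ih, Psi_spec χ 𝒲 r.2] with q h1 h2
        intro p hp
        rcases List.mem_cons.mp hp with rfl | hp
        · exact h2
        · exact h1 p hp
    exact this
  obtain ⟨j, hj⟩ := hW _ hS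
  obtain ⟨l, hl1, hl2⟩ := (hj.and (U_ge (l₀ + 1))).exists
  obtain ⟨l', rfl⟩ : ∃ l', l = l' + 1 := ⟨l - 1, by omega⟩
  have hlev := h₀ l' (by omega)
  have key : ∀ᶠ m in (U : Filter ℕ), ∃ C : Finset (Fin (N m)),
      (C ⊆ W (x m) w ∧ ((W (x m) w \ C).card : ℝ) ≤ 2 * δ m (l' + 1) * N m) ∧
      ∀ p ∈ 𝒜, χ m (p.2 m) C = Psi χ 𝒲 p.2 := by
    filter_upwards [hl1, hlev, U_ge (l' + 1), U_ge j, U_ge 𝒜.length] with m hm1 hm2 hm3 hm4 hm5
    let wi : Fin m → Finset (Fin s) := fun i => if h : (i : ℕ) < 𝒜.length then (𝒜[(i : ℕ)]'h).1 else ∅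
    let A : Fin m → Finset (Fin (N m)) := fun i =>
      if h : (i : ℕ) < 𝒜.length then (𝒜[(i : ℕ)]'h).2 m else ∅
    let ε : Fin m → Fin c := fun i =>
      if h : (i : ℕ) < 𝒜.length then Psi χ 𝒲 (𝒜[(i : ℕ)]'h).2 else ⟨0, hc⟩
    let I : Finset (Fin m) := univ.filter (fun i => (i : ℕ) < 𝒜.length)
    have hI : ∀ i, i ∈ I ↔ (i : ℕ) < 𝒜.length := by intro i; simp [I]
    have hset : {v : Finset (Fin (N m)) | ∀ i ∈ I, χ m (A i) v = ε i}
        = {v | ∀ p ∈ 𝒜, χ m (p.2 m) v = Psi χ 𝒲 p.2} := by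
      ext v
      constructor
      · intro h p hp
        obtain ⟨i, hi, rfl⟩ := List.mem_iff_getElem.mp hp
        have h1 := h ⟨i, by omega⟩ ((hI _).mpr hi)
        simp only [A, ε, dif_pos hi] at h1
        exact h1
      · intro h i hi
        rw [hI] at hi
        simp only [A, ε, dif_pos hi]
        exact h _ (List.getElem_mem hi)
    have hb : Big (x m) w (δ m (l' + 1)) (δ m (l' + 1) / 2 ^ (j + 1)) {v | ∀ i ∈ I, χ m (A i) v = ε i} := by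
      refine (hgood m).tr l' (by omega) j hm4 I wi A ε y w hyw ?_ ?_
      · intro i hi
        rw [hI] at hi
        simp only [wi, A, dif_pos hi]
        have h1 := hA _ (List.getElem_mem hi)
        have h2 := hm2 _ (List.getElem_mem hi)
        exact ⟨h1.2.1, h1.2.2, h2.1, h2.2⟩
      · rw [hset]; exact hm1
    rw [hset] at hb
    obtain ⟨C, hC1, hC2, hC3⟩ := Big_nonempty (by have := hδ m (l' + 1); positivity) hb
    exact ⟨C, ⟨hC2, hC3⟩, hC1⟩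
  let B : ∀ m, Finset (Fin (N m)) := fun m =>
    if h : ∃ C : Finset (Fin (N m)), (C ⊆ W (x m) w ∧ ((W (x m) w \ C).card : ℝ) ≤ 2 * δ m (l' + 1) * N m) ∧
      ∀ p ∈ 𝒜, χ m (p.2 m) C = Psi χ 𝒲 p.2 then Classical.choose h else ∅
  have hB : ∀ᶠ m in (U : Filter ℕ), (B m ⊆ W (x m) w ∧ ((W (x m) w \ B m).card : ℝ) ≤ 2 * δ m (l' + 1) * N m) ∧
      ∀ p ∈ 𝒜, χ m (p.2 m) (B m) = Psi χ 𝒲 p.2 := by
    filter_upwards [key] with m hm
    have e : B m = Classical.choose hm := dif_pos hm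
    rw [e]
    exact Classical.choose_spec hm
  refine ⟨B, ⟨l' + 1, ?_⟩, ?_⟩
  · filter_upwards [hB] with m hm
    exact hm.1
  · intro p hp
    filter_upwards [hB] with m hm
    exact hm.2 p hp

theorem claim {c s : ℕ} (N : ℕ → ℕ) (χ : ∀ m, Finset (Fin (N m)) → Finset (Fin (N m)) → Fin c)
    (x : ∀ m, Fin (N m) → Fin s) (δ : ℕ → ℕ → ℝ) (hδ : ∀ m l, 0 < δ m l)
    (hmono : ∀ m l l', l ≤ l' → l' ≤ m → δ m l ≤ δ m l') (ξ : ℝ)
    (hgood : ∀ m, Good m (δ m) ξ (χ m) (x m)) (y : Finset (Fin s)) (𝒲 : Ultrafilter (Pt N))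
    (hW : ∀ S ∈ 𝒲, LL N x δ y S) (k : ℕ) :
    ∀ (𝒜 : List (RO s N)) (R : Set (Finset (Fin s))),
      (∀ w ∈ R, w.card = y.card ∧ Disjoint w y) →
      (∀ p ∈ 𝒜, IsObj N x δ p.1 p.2 ∧ Disjoint p.1 y ∧ ∀ w ∈ R, Disjoint p.1 w) →
      Rich (Finset (Fin c)) k R →
      ∃ (a : Fin c) (L : List (RO s N)), L.length = k ∧
        (∀ p ∈ L, p.1 ∈ R ∧ IsObj N x δ p.1 p.2 ∧ Psi χ 𝒲 p.2 = a ∧
          ∀ q ∈ 𝒜, ∀ᶠ m in (U : Filter ℕ), χ m (q.2 m) (p.2 m) = Psi χ 𝒲 q.2) ∧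
        L.Pairwise (fun p q => Disjoint p.1 q.1 ∧ ∀ᶠ m in (U : Filter ℕ), χ m (p.2 m) (q.2 m) = a) := by
  have hc : 0 < c := by
    by_contra h
    have h0 : c = 0 := by omega
    subst h0
    exact (Psi χ 𝒲 (fun _ => ∅)).elim0
  induction k with
  | zero =>
    intro 𝒜 R _ _ _
    exact ⟨⟨0, hc⟩, [], rfl, fun p hp => absurd hp List.not_mem_nil, List.Pairwise.nil⟩
  | succ k ih =>
    intro 𝒜 R hR hA hrich
    let J : Finset (Fin s) → Finset (Fin c) := fun w => univ.filter (fun a =>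
      ∃ B, IsObj N x δ w B ∧ (∀ q ∈ 𝒜, ∀ᶠ m in (U : Filter ℕ), χ m (q.2 m) (B m) = Psi χ 𝒲 q.2) ∧
        Psi χ 𝒲 B = a)
    have hJ : ∀ w a, a ∈ J w ↔ ∃ B, IsObj N x δ w B ∧
        (∀ q ∈ 𝒜, ∀ᶠ m in (U : Filter ℕ), χ m (q.2 m) (B m) = Psi χ 𝒲 q.2) ∧ Psi χ 𝒲 B = a := by
      intro w a; simp [J]
    obtain ⟨v, hv, hvR⟩ := hrich J
    have hwit : ∀ a : Fin c, ∃ B, a ∈ J v → IsObj N x δ v B ∧
        (∀ q ∈ 𝒜, ∀ᶠ m in (U : Filter ℕ), χ m (q.2 m) (B m) = Psi χ 𝒲 q.2) ∧ Psi χ 𝒲 B = a := by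
      intro a
      by_cases h : a ∈ J v
      · obtain ⟨B, hB⟩ := (hJ v a).mp h
        exact ⟨B, fun _ => hB⟩
      · exact ⟨fun _ => ∅, fun h' => absurd h' h⟩
    choose Bw hBw using hwit
    obtain ⟨a, L, hL1, hL2, hL3⟩ := ih (𝒜 ++ (J v).toList.map (fun a => ((v, Bw a) : RO s N)))
      {w | w ∈ R ∧ Disjoint w v ∧ J w = J v} (fun w hw => hR w hw.1) (by
        intro p hp
        rcases List.mem_append.mp hp with hp | hp
        · obtain ⟨g1, g2, g3⟩ := hA p hp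
          exact ⟨g1, g2, fun w hw => g3 w hw.1⟩
        · obtain ⟨b, hb, rfl⟩ := List.mem_map.mp hp
          rw [Finset.mem_toList] at hb
          refine ⟨(hBw b hb).1, (hR v hv).2, fun w hw => hw.2.1.symm⟩) hvR
    rcases L with _ | ⟨p₀, L'⟩
    · -- k = 0
      obtain ⟨B, hB1, hB2⟩ := transport N χ x δ hδ hmono ξ hgood y 𝒲 hW 𝒜 v (hR v hv).1.symm
        (fun p hp => ⟨(hA p hp).1, (hA p hp).2.1, (hA p hp).2.2 v hv⟩)
      refine ⟨Psi χ 𝒲 B, [(v, B)], ?_, ?_, ?_⟩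
      · simp at hL1 ⊢; omega
      · intro p hp
        rw [List.mem_singleton] at hp
        subst hp
        exact ⟨hv, hB1, rfl, hB2⟩
      · exact List.pairwise_singleton _ _
    · have h0 := hL2 p₀ List.mem_cons_self
      have haJ : a ∈ J v := by
        rw [← h0.1.2.2, hJ]
        exact ⟨p₀.2, h0.2.1, fun q hq => h0.2.2.2 q (List.mem_append_left _ hq), h0.2.2.1⟩
      obtain ⟨g1, g2, g3⟩ := hBw a haJ
      refine ⟨a, (v, Bw a) :: p₀ :: L', ?_, ?_, ?_⟩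
      · rw [List.length_cons, hL1]
      · intro p hp
        rcases List.mem_cons.mp hp with rfl | hp
        · exact ⟨hv, g1, g3, g2⟩
        · obtain ⟨e1, e2, e3, e4⟩ := hL2 p hp
          exact ⟨e1.1, e2, e3, fun q hq => e4 q (List.mem_append_left _ hq)⟩
      · rw [List.pairwise_cons]
        refine ⟨?_, hL3⟩
        intro p hp
        obtain ⟨e1, e2, e3, e4⟩ := hL2 p hp
        refine ⟨e1.2.1.symm, ?_⟩
        have h5 := e4 (v, Bw a) (List.mem_append_right _ (List.mem_map.mpr ⟨a, by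
          rw [Finset.mem_toList]; exact haJ, rfl⟩))
        filter_upwards [h5] with m hm
        rw [hm]; exact g3

end Pool.Agent.H179_KR
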