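import Mathlib

/-! Two-set isoperimetric inequality on the Boolean cube and the swap concentration lemma. -/

namespace Pool.Agent.H179_KR

open Finset

attribute [local instance] Classical.propDecidable

lemma card_cons (N : ℕ) (A : Finset (Fin (N + 1) → Bool)) :
    A.card = (univ.filter (fun z : Fin N → Bool => (Fin.cons false z : Fin (N + 1) → Bool) ∈ A)).card
      + (univ.filter (fun z : Fin N → Bool => (Fin.cons true z : Fin (N + 1) → Bool) ∈ A)).card := by
  let g : (Fin (N + 1) → Bool) → ℕ := fun x => if x ∈ A then 1 else 0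
  have h1 : A.card = ∑ x : (Fin (N + 1) → Bool), g x := by
    show A.card = ∑ x : (Fin (N + 1) → Bool), if x ∈ A then 1 else 0
    rw [← Finset.card_filter]; congr 1; ext x; simp
  have h2 : ∑ x : (Fin (N + 1) → Bool), g x
      = ∑ p : Bool × (Fin N → Bool), g (Fin.cons p.1 p.2) :=
    ((Fin.consEquiv (fun _ : Fin (N + 1) => Bool)).sum_comp g).symm
  rw [h1, h2, Fintype.sum_prod_type, Fintype.sum_bool, add_comm]
  congr 1
  · rw [Finset.card_filter]
  · rw [Finset.card_filter]

lemma hammingDist_cons (N : ℕ) (u v : Bool) (a b : Fin N → Bool) :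
    hammingDist (Fin.cons u a : Fin (N + 1) → Bool) (Fin.cons v b : Fin (N + 1) → Bool)
      = (if u ≠ v then 1 else 0) + hammingDist a b := by
  unfold hammingDist
  rw [Finset.card_filter, Finset.card_filter, Fin.sum_univ_succ]
  simp

theorem two_set (θ : ℝ) (hθ : 1 ≤ θ) : ∀ (N t : ℕ) (A B : Finset (Fin N → Bool)),
    (∀ a ∈ A, ∀ b ∈ B, t ≤ hammingDist a b) →
    (A.card : ℝ) * B.card * θ ^ t ≤ (2 + θ + θ⁻¹) ^ N := by
  have hθ0 : 0 < θ := by linarith
  intro N
  induction N with
  | zero =>
    intro t A B h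
    have hA : A.card ≤ 1 := by
      have := Finset.card_le_univ A
      simpa using this
    have hB : B.card ≤ 1 := by
      have := Finset.card_le_univ B
      simpa using this
    rcases A.eq_empty_or_nonempty with rfl | ⟨a, ha⟩
    · simp
    rcases B.eq_empty_or_nonempty with rfl | ⟨b, hb⟩
    · simp
    have ht : t = 0 := by
      have := h a ha b hb
      have h2 : hammingDist a b = 0 := by
        rw [hammingDist_eq_zero]; exact Subsingleton.elim _ _
      omega
    subst ht
    simp only [pow_zero, mul_one]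
    have hA' : (A.card : ℝ) ≤ 1 := by exact_mod_cast hA
    have hB' : (B.card : ℝ) ≤ 1 := by exact_mod_cast hB
    have hB0 : (0 : ℝ) ≤ B.card := by positivity
    have hA0 : (0 : ℝ) ≤ A.card := by positivity
    nlinarith
  | succ N ih =>
    intro t A B h
    set A0 := (univ.filter (fun z : Fin N → Bool => (Fin.cons false z : Fin (N + 1) → Bool) ∈ A)) with hA0
    set A1 := (univ.filter (fun z : Fin N → Bool => (Fin.cons true z : Fin (N + 1) → Bool) ∈ A)) with hA1
    set B0 := (univ.filter (fun z : Fin N → Bool => (Fin.cons false z : Fin (N + 1) → Bool) ∈ B)) with hB0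
    set B1 := (univ.filter (fun z : Fin N → Bool => (Fin.cons true z : Fin (N + 1) → Bool) ∈ B)) with hB1
    have cA := card_cons N A
    have cB := card_cons N B
    rw [← hA0, ← hA1] at cA
    rw [← hB0, ← hB1] at cB
    have h00 := ih t A0 B0 (by
      intro a ha b hb
      have := h _ (by simpa [hA0] using ha) _ (by simpa [hB0] using hb)
      rw [hammingDist_cons] at this
      simpa using this)
    have h11 := ih t A1 B1 (by
      intro a ha b hb
      have := h _ (by simpa [hA1] using ha) _ (by simpa [hB1] using hb)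
      rw [hammingDist_cons] at this
      simpa using this)
    have h01 := ih (t - 1) A0 B1 (by
      intro a ha b hb
      have := h _ (by simpa [hA0] using ha) _ (by simpa [hB1] using hb)
      rw [hammingDist_cons] at this
      simp at this
      omega)
    have h10 := ih (t - 1) A1 B0 (by
      intro a ha b hb
      have := h _ (by simpa [hA1] using ha) _ (by simpa [hB0] using hb)
      rw [hammingDist_cons] at this
      simp at this
      omega)
    set K := (2 + θ + θ⁻¹) ^ N with hK
    have hKpos : 0 < K := by positivity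
    have hpow : θ ^ t ≤ θ * θ ^ (t - 1) := by
      rcases Nat.eq_zero_or_pos t with h0 | h0
      · subst h0; simpa using hθ
      · have : t = (t - 1) + 1 := by omega
        conv_lhs => rw [this]
        rw [pow_succ]; linarith
    have hpt : 0 < θ ^ t := by positivity
    have hpt1 : 0 < θ ^ (t - 1) := by positivity
    set T := θ ^ t with hT
    have e00 : (A0.card : ℝ) * B0.card * T ≤ K := h00
    have e11 : (A1.card : ℝ) * B1.card * T ≤ K := h11
    have e01 : (A0.card : ℝ) * B1.card * T ≤ θ * K := by
      have : (A0.card : ℝ) * B1.card * T ≤ (A0.card : ℝ) * B1.card * (θ * θ ^ (t - 1)) := by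
        apply mul_le_mul_of_nonneg_left hpow (by positivity)
      have h2 : (A0.card : ℝ) * B1.card * (θ * θ ^ (t - 1)) = θ * ((A0.card : ℝ) * B1.card * θ ^ (t - 1)) := by ring
      rw [h2] at this
      exact this.trans (mul_le_mul_of_nonneg_left h01 hθ0.le)
    have e10 : (A1.card : ℝ) * B0.card * T ≤ θ * K := by
      have : (A1.card : ℝ) * B0.card * T ≤ (A1.card : ℝ) * B0.card * (θ * θ ^ (t - 1)) := by
        apply mul_le_mul_of_nonneg_left hpow (by positivity)
      have h2 : (A1.card : ℝ) * B0.card * (θ * θ ^ (t - 1)) = θ * ((A1.card : ℝ) * B0.card * θ ^ (t - 1)) := by ring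
      rw [h2] at this
      exact this.trans (mul_le_mul_of_nonneg_left h10 hθ0.le)
    set a0 : ℝ := (A0.card : ℝ) with ha0
    set a1 : ℝ := (A1.card : ℝ) with ha1
    set b0 : ℝ := (B0.card : ℝ) with hb0
    set b1 : ℝ := (B1.card : ℝ) with hb1
    have na0 : 0 ≤ a0 := by positivity
    have na1 : 0 ≤ a1 := by positivity
    have nb0 : 0 ≤ b0 := by positivity
    have nb1 : 0 ≤ b1 := by positivity
    have hprod : (a0 * b1 * T) * (a1 * b0 * T) ≤ K * K := by
      have : (a0 * b1 * T) * (a1 * b0 * T) = (a0 * b0 * T) * (a1 * b1 * T) := by ring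
      rw [this]
      exact mul_le_mul e00 e11 (by positivity) hKpos.le
    have hsum : a0 * b1 * T + a1 * b0 * T ≤ (θ + θ⁻¹) * K := by
      set p := a0 * b1 * T
      set q := a1 * b0 * T
      have h1 : 0 ≤ (θ * K - p) * (θ * K - q) := mul_nonneg (by linarith) (by linarith)
      have h2 : θ * K * (p + q) ≤ K * K + θ * K * (θ * K) := by nlinarith
      have h3 : θ * K * (p + q) ≤ θ * K * ((θ + θ⁻¹) * K) := by
        have : θ * K * ((θ + θ⁻¹) * K) = θ * K * (θ * K) + (θ * θ⁻¹) * (K * K) := by ring
        rw [this, mul_inv_cancel₀ hθ0.ne']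
        linarith
      exact le_of_mul_le_mul_left h3 (by positivity)
    rw [cA, cB]
    push_cast
    rw [pow_succ, ← hK]
    have : (a0 + a1) * (b0 + b1) * T = a0 * b0 * T + a1 * b1 * T + (a0 * b1 * T + a1 * b0 * T) := by ring
    rw [this]
    nlinarith

/-- flipping by `σ` on the positions where `b` is true -/
def xb {N s : ℕ} (σ : Fin s → Fin s) (x : Fin N → Fin s) (b : Fin N → Bool) : Fin N → Fin s :=
  fun i => if b i then σ (x i) else x i

lemma xb_xb {N s : ℕ} (σ : Fin s → Fin s) (hσ : ∀ u, σ (σ u) = u) (x : Fin N → Fin s) (b : Fin N → Bool) :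
    xb σ (xb σ x b) b = x := by
  funext i
  unfold xb
  by_cases h : b i <;> simp [h, hσ]

lemma comp_xb {N s : ℕ} (σ : Fin s → Fin s) (hσ : ∀ u, σ (σ u) = u) (x : Fin N → Fin s) (b : Fin N → Bool) :
    σ ∘ (xb σ x b) = xb σ x (fun i => !(b i)) := by
  funext i
  unfold xb
  by_cases h : b i <;> simp [h, hσ]

theorem swap_conc (N s t : ℕ) (hN : 0 < N) (σ : Fin s → Fin s) (hσ : ∀ u, σ (σ u) = u)
    (P Q : (Fin N → Fin s) → Prop)
    (h : ∀ x x' : Fin N → Fin s, (∀ i, x' i = x i ∨ x' i = σ (x i)) → hammingDist x x' ≤ t →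
      P (σ ∘ x) → Q x') :
    ((univ.filter (fun x : Fin N → Fin s => P x ∧ ¬ Q x)).card : ℝ)
      ≤ (s : ℝ) ^ N * Real.exp (-((t : ℝ) ^ 2 / (2 * N))) := by
  have hNr : (0 : ℝ) < N := by exact_mod_cast hN
  set S : (Fin N → Fin s) → Prop := fun x => P x ∧ ¬ Q x with hS
  set R : ℝ := 2 ^ N * Real.exp (-((t : ℝ) ^ 2 / (2 * N))) with hR
  have hRpos : 0 < R := by positivity
  -- bound on each swap cube
  have hx : ∀ x : Fin N → Fin s,
      ((univ.filter (fun b : Fin N → Bool => S (xb σ x b))).card : ℝ) ≤ R := by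
    intro x
    set A := univ.filter (fun b : Fin N → Bool => P (xb σ x b)) with hA
    set A' := univ.filter (fun b : Fin N → Bool => P (σ ∘ (xb σ x b))) with hA'
    set B := univ.filter (fun b : Fin N → Bool => ¬ Q (xb σ x b)) with hB
    have cAA' : A.card = A'.card := by
      refine Finset.card_bij (fun b _ => fun i => !(b i)) ?_ ?_ ?_
      · intro b hb
        simp only [hA, hA', mem_filter, mem_univ, true_and] at hb ⊢
        rw [comp_xb σ hσ]
        simpa using hb
      · intro b _ b' _ hbb
        funext i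
        have := congrFun hbb i
        simpa using this
      · intro b hb
        refine ⟨fun i => !(b i), ?_, by funext i; simp⟩
        simp only [hA, hA', mem_filter, mem_univ, true_and] at hb ⊢
        rw [comp_xb σ hσ] at hb
        exact hb
    have hdist : ∀ a ∈ A', ∀ b ∈ B, t ≤ hammingDist a b := by
      intro a ha b hb
      by_contra hlt
      push Not at hlt
      simp only [hA', hB, mem_filter, mem_univ, true_and] at ha hb
      apply hb
      apply h (xb σ x a) (xb σ x b) _ _ ha
      · intro i
        unfold xb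
        by_cases h1 : a i <;> by_cases h2 : b i <;> simp [h1, h2, hσ]
      · refine le_trans ?_ hlt.le
        unfold hammingDist
        apply Finset.card_le_card
        intro i hi
        simp only [mem_filter, mem_univ, true_and] at hi ⊢
        intro hab
        apply hi
        unfold xb
        rw [hab]
    have key : ∀ θ : ℝ, 1 ≤ θ → (A'.card : ℝ) * B.card * θ ^ t ≤ (2 + θ + θ⁻¹) ^ N :=
      fun θ hθ => two_set θ hθ N t A' B hdist
    set lam : ℝ := 2 * t / N with hlam
    have hlam0 : 0 ≤ lam := by positivity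
    have k1 := key (Real.exp lam) (Real.one_le_exp hlam0)
    have hbase : (2 + Real.exp lam + (Real.exp lam)⁻¹) ≤ 4 * Real.exp (lam ^ 2 / 4) := by
      have hc : Real.cosh (lam / 2) ^ 2 ≤ Real.exp (lam ^ 2 / 4) := by
        have := Real.cosh_le_exp_half_sq (lam / 2)
        have h2 : Real.cosh (lam / 2) ^ 2 ≤ (Real.exp ((lam / 2) ^ 2 / 2)) ^ 2 := by
          apply pow_le_pow_left₀ (Real.cosh_pos _).le this
        rw [← Real.exp_nat_mul] at h2
        refine h2.trans (le_of_eq ?_)
        congr 1
        push_cast; ring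
      have he : 2 + Real.exp lam + (Real.exp lam)⁻¹ = 4 * Real.cosh (lam / 2) ^ 2 := by
        rw [Real.cosh_eq, ← Real.exp_neg]
        have e1 : Real.exp lam = Real.exp (lam / 2) * Real.exp (lam / 2) := by
          rw [← Real.exp_add]; ring_nf
        have e2 : Real.exp (-lam) = Real.exp (-(lam / 2)) * Real.exp (-(lam / 2)) := by
          rw [← Real.exp_add]; ring_nf
        have e3 : Real.exp (lam / 2) * Real.exp (-(lam / 2)) = 1 := by
          rw [← Real.exp_add]; simp
        rw [e1, e2]
        nlinarith [e3]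
      rw [he]
      linarith
    have k2 : (A'.card : ℝ) * B.card * (Real.exp lam) ^ t ≤ (4 * Real.exp (lam ^ 2 / 4)) ^ N :=
      k1.trans (pow_le_pow_left₀ (by positivity) hbase N)
    have k3 : (A'.card : ℝ) * B.card ≤ R ^ 2 := by
      have e1 : (Real.exp lam) ^ t = Real.exp (2 * (t : ℝ) ^ 2 / N) := by
        rw [← Real.exp_nat_mul]; congr 1; rw [hlam]; ring
      have e2 : (4 * Real.exp (lam ^ 2 / 4)) ^ N = 4 ^ N * Real.exp ((t : ℝ) ^ 2 / N) := by
        rw [mul_pow, ← Real.exp_nat_mul]
        congr 2
        rw [hlam]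
        field_simp
        ring
      have e3 : R ^ 2 = 4 ^ N * Real.exp (-((t : ℝ) ^ 2 / N)) := by
        rw [hR, mul_pow, ← Real.exp_nat_mul, ← pow_mul, mul_comm N 2, pow_mul]
        norm_num
        field_simp
      rw [e1, e2] at k2
      rw [e3]
      have e4 : Real.exp ((t : ℝ) ^ 2 / N) = Real.exp (-((t : ℝ) ^ 2 / N)) * Real.exp (2 * (t : ℝ) ^ 2 / N) := by
        rw [← Real.exp_add]; congr 1; field_simp; ring
      rw [e4, ← mul_assoc] at k2
      exact le_of_mul_le_mul_right k2 (Real.exp_pos _)
    set C := univ.filter (fun b : Fin N → Bool => S (xb σ x b)) with hC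
    have hCA : C ⊆ A := by
      intro b hb
      simp only [hC, hA, hS, mem_filter, mem_univ, true_and] at hb ⊢
      exact hb.1
    have hCB : C ⊆ B := by
      intro b hb
      simp only [hC, hB, hS, mem_filter, mem_univ, true_and] at hb ⊢
      exact hb.2
    have c1 : (C.card : ℝ) ≤ A'.card := by
      rw [← cAA']; exact_mod_cast Finset.card_le_card hCA
    have c2 : (C.card : ℝ) ≤ B.card := by
      exact_mod_cast Finset.card_le_card hCB
    have c3 : (C.card : ℝ) ^ 2 ≤ R ^ 2 := by
      have c0 : (0 : ℝ) ≤ C.card := by positivity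
      nlinarith
    exact le_of_sq_le_sq c3 hRpos.le
  -- double counting
  have hcount : (2 : ℝ) ^ N * ((univ.filter S).card : ℝ)
      = ∑ x : Fin N → Fin s, ((univ.filter (fun b : Fin N → Bool => S (xb σ x b))).card : ℝ) := by
    have h1 : ∀ x : Fin N → Fin s, ((univ.filter (fun b : Fin N → Bool => S (xb σ x b))).card : ℝ)
        = ∑ b : Fin N → Bool, if S (xb σ x b) then (1 : ℝ) else 0 := by
      intro x; rw [Finset.card_filter]; push_cast; rfl
    simp_rw [h1]
    rw [Finset.sum_comm]
    have h2 : ∀ b : Fin N → Bool, (∑ x : Fin N → Fin s, if S (xb σ x b) then (1 : ℝ) else 0)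
        = ((univ.filter S).card : ℝ) := by
      intro b
      let e : (Fin N → Fin s) ≃ (Fin N → Fin s) :=
        ⟨fun x => xb σ x b, fun x => xb σ x b, fun x => xb_xb σ hσ x b, fun x => xb_xb σ hσ x b⟩
      have := e.sum_comp (fun x => if S x then (1 : ℝ) else 0)
      rw [show (∑ x : Fin N → Fin s, if S (xb σ x b) then (1 : ℝ) else 0)
        = ∑ x, (fun x => if S x then (1 : ℝ) else 0) (e x) from rfl, this, Finset.card_filter]
      push_cast; rfl
    simp_rw [h2]
    rw [Finset.sum_const, Finset.card_univ]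
    simp
  have hsum : ∑ x : Fin N → Fin s, ((univ.filter (fun b : Fin N → Bool => S (xb σ x b))).card : ℝ)
      ≤ (s : ℝ) ^ N * R := by
    calc ∑ x : Fin N → Fin s, ((univ.filter (fun b : Fin N → Bool => S (xb σ x b))).card : ℝ)
        ≤ ∑ _x : Fin N → Fin s, R := Finset.sum_le_sum (fun x _ => hx x)
      _ = (s : ℝ) ^ N * R := by
        rw [Finset.sum_const, Finset.card_univ]; simp
  rw [← hcount, hR] at hsum
  have h2N : (0 : ℝ) < 2 ^ N := by positivity
  have : (2 : ℝ) ^ N * ((univ.filter S).card : ℝ) ≤ 2 ^ N * ((s : ℝ) ^ N * Real.exp (-((t : ℝ) ^ 2 / (2 * N)))) := by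
    calc _ ≤ _ := hsum
      _ = _ := by ring
  exact le_of_mul_le_mul_left this h2N

end Pool.Agent.H179_KR
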