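import Pool.Agent.H179_KR.Rich

/-! Largeness, transport, and existence of good block assignments. -/

namespace Pool.Agent.H179_KR

open Finset

attribute [local instance] Classical.propDecidable

/-- `F` is large at the blocks `w`, at slack `δ` and tolerance `η`. -/
def Big {N s : ℕ} (x : Fin N → Fin s) (w : Finset (Fin s)) (δ η : ℝ) (F : Set (Finset (Fin N))) : Prop :=
  ∀ E : Finset (Fin N), (E.card : ℝ) ≤ η * N →
    ∃ A ∈ F, A ⊆ W x w ∧ Disjoint A E ∧ ((W x w \ A).card : ℝ) ≤ (2 * δ - η) * N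

lemma Big_start {N s : ℕ} (x : Fin N → Fin s) (w : Finset (Fin s)) (δ : ℝ) : Big x w δ δ Set.univ := by
  intro E hE
  refine ⟨W x w \ E, trivial, sdiff_subset, sdiff_disjoint, ?_⟩
  have h1 : W x w \ (W x w \ E) ⊆ E := by
    intro i hi
    simp only [mem_sdiff, not_and, not_not] at hi
    exact hi.2 hi.1
  have h2 : ((W x w \ (W x w \ E)).card : ℝ) ≤ E.card := by exact_mod_cast Finset.card_le_card h1
  nlinarith

lemma Big_mono {N s : ℕ} {x : Fin N → Fin s} {w : Finset (Fin s)} {δ η : ℝ} {F G : Set (Finset (Fin N))}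
    (h : F ⊆ G) (hF : Big x w δ η F) : Big x w δ η G := by
  intro E hE
  obtain ⟨A, h1, h2⟩ := hF E hE
  exact ⟨A, h h1, h2⟩

lemma Big_le {N s : ℕ} {x : Fin N → Fin s} {w : Finset (Fin s)} {δ η η' : ℝ} {F : Set (Finset (Fin N))}
    (h : η' ≤ η) (hF : Big x w δ η F) : Big x w δ η' F := by
  intro E hE
  have hN : (0 : ℝ) ≤ N := by positivity
  obtain ⟨A, h1, h2, h3, h4⟩ := hF E (by nlinarith)
  exact ⟨A, h1, h2, h3, by nlinarith⟩

lemma Big_union {N s : ℕ} {x : Fin N → Fin s} {w : Finset (Fin s)} {δ η : ℝ} {F G : Set (Finset (Fin N))}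
    (hη : 0 ≤ η) (hF : Big x w δ η (F ∪ G)) : Big x w δ (η / 2) F ∨ Big x w δ (η / 2) G := by
  by_contra hcon
  push Not at hcon
  obtain ⟨h1, h2⟩ := hcon
  unfold Big at h1 h2
  push Not at h1 h2
  obtain ⟨E1, hE1, hE1'⟩ := h1
  obtain ⟨E2, hE2, hE2'⟩ := h2
  have hN : (0 : ℝ) ≤ N := by positivity
  obtain ⟨A, hA1, hA2, hA3, hA4⟩ := hF (E1 ∪ E2) (by
    have : ((E1 ∪ E2).card : ℝ) ≤ E1.card + E2.card := by exact_mod_cast Finset.card_union_le _ _
    linarith)
  have hb : (2 * δ - η) * N ≤ (2 * δ - η / 2) * N := by nlinarith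
  rcases hA1 with h | h
  · have := hE1' A h hA2 (Finset.disjoint_of_subset_right subset_union_left hA3)
    linarith
  · have := hE2' A h hA2 (Finset.disjoint_of_subset_right subset_union_right hA3)
    linarith

lemma Big_nonempty {N s : ℕ} {x : Fin N → Fin s} {w : Finset (Fin s)} {δ η : ℝ} {F : Set (Finset (Fin N))}
    (hη : 0 ≤ η) (hF : Big x w δ η F) : ∃ A ∈ F, A ⊆ W x w ∧ ((W x w \ A).card : ℝ) ≤ 2 * δ * N := by
  have hN : (0 : ℝ) ≤ N := by positivity
  obtain ⟨A, h1, h2, _, h4⟩ := hF ∅ (by simp; positivity)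
  exact ⟨A, h1, h2, by nlinarith⟩

/-- transport bound for one fixed parameter -/
lemma tr_conc {N s m c : ℕ} (hN : 0 < N) (χ : Finset (Fin N) → Finset (Fin N) → Fin c) (δ η : ℝ) (hη : 0 ≤ η)
    (I : Finset (Fin m)) (wi : Fin m → Finset (Fin s)) (Ei : Fin m → Finset (Fin N)) (ε : Fin m → Fin c)
    (y w : Finset (Fin s)) :
    (cnt (fun x : Fin N → Fin s => ((y.card = w.card ∧ ∀ i ∈ I, Disjoint (wi i) y ∧ Disjoint (wi i) w) ∧
        Big x y δ η {v | ∀ i ∈ I, χ (W x (wi i) \ Ei i) v = ε i}) ∧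
        ¬ Big x w δ (η / 2) {v | ∀ i ∈ I, χ (W x (wi i) \ Ei i) v = ε i}) : ℝ)
      ≤ (s : ℝ) ^ N * Real.exp (-((⌊η / 2 * N⌋₊ : ℝ) ^ 2 / (2 * N))) := by
  by_cases hc : y.card = w.card ∧ ∀ i ∈ I, Disjoint (wi i) y ∧ Disjoint (wi i) w
  · obtain ⟨σ, h1, h2, h3⟩ := exists_inv y w hc.1
    have hfix : ∀ i ∈ I, ∀ u, σ u ∈ wi i ↔ u ∈ wi i := by
      intro i hi u
      obtain ⟨d1, d2⟩ := hc.2 i hi
      constructor
      · intro hu
        have e1 := h3 (σ u) (Finset.disjoint_left.mp d1 hu) (Finset.disjoint_left.mp d2 hu)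
        rw [h1] at e1
        rw [e1]; exact hu
      · intro hu
        rw [h3 u (Finset.disjoint_left.mp d1 hu) (Finset.disjoint_left.mp d2 hu)]
        exact hu
    refine swap_conc' N s _ hN σ h1 (fun x => (y.card = w.card ∧ ∀ i ∈ I, Disjoint (wi i) y ∧ Disjoint (wi i) w) ∧
        Big x y δ η {v | ∀ i ∈ I, χ (W x (wi i) \ Ei i) v = ε i})
      (fun x => Big x w δ (η / 2) {v | ∀ i ∈ I, χ (W x (wi i) \ Ei i) v = ε i}) ?_
    intro x x' hrel hd hP
    have hP' := hP.2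
    have hset : ∀ z : Fin N → Fin s, (∀ i ∈ I, W z (wi i) = W x (wi i)) →
        {v | ∀ i ∈ I, χ (W z (wi i) \ Ei i) v = ε i} = {v | ∀ i ∈ I, χ (W x (wi i) \ Ei i) v = ε i} := by
      intro z hz
      ext v
      simp only [Set.mem_setOf_eq]
      constructor
      · intro h i hi; rw [← hz i hi]; exact h i hi
      · intro h i hi; rw [hz i hi]; exact h i hi
    have hs1 := hset (σ ∘ x) (fun i hi => W_comp x σ (hfix i hi))
    have hs2 := hset x' (fun i hi => by
      ext j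
      rw [mem_W, mem_W]
      rcases hrel j with h | h
      · rw [h]
      · rw [h, hfix i hi])
    show Big x' w δ (η / 2) {v | ∀ i ∈ I, χ (W x' (wi i) \ Ei i) v = ε i}
    rw [hs2]
    rw [hs1] at hP'
    set F := {v | ∀ i ∈ I, χ (W x (wi i) \ Ei i) v = ε i} with hF
    intro E hE
    have hWs : W (σ ∘ x) y = W x w := W_comp x σ h2
    have hd1 := W_sdiff_card x x' w ⌊η / 2 * N⌋₊ hd
    have hd2 : ((W x w \ W x' w).card : ℝ) ≤ η / 2 * N := by
      have h5 : ((W x w \ W x' w).card : ℝ) ≤ (⌊η / 2 * N⌋₊ : ℝ) := by exact_mod_cast hd1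
      exact h5.trans (Nat.floor_le (by positivity))
    have hd3 := W_sdiff_card x' x w ⌊η / 2 * N⌋₊ (by rw [hammingDist_comm]; exact hd)
    have hd4 : ((W x' w \ W x w).card : ℝ) ≤ η / 2 * N := by
      have h5 : ((W x' w \ W x w).card : ℝ) ≤ (⌊η / 2 * N⌋₊ : ℝ) := by exact_mod_cast hd3
      exact h5.trans (Nat.floor_le (by positivity))
    obtain ⟨A, hA1, hA2, hA3, hA4⟩ := hP' (E ∪ (W x w \ W x' w)) (by
      have : ((E ∪ (W x w \ W x' w)).card : ℝ) ≤ E.card + (W x w \ W x' w).card := by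
        exact_mod_cast Finset.card_union_le _ _
      linarith)
    rw [hWs] at hA2 hA4
    refine ⟨A, hA1, ?_, Finset.disjoint_of_subset_right subset_union_left hA3, ?_⟩
    · intro i hi
      by_contra hni
      have : i ∈ W x w \ W x' w := by
        rw [mem_sdiff]; exact ⟨hA2 hi, hni⟩
      exact (Finset.disjoint_left.mp hA3 hi) (mem_union_right _ this)
    · have h6 : W x' w \ A ⊆ (W x' w \ W x w) ∪ (W x w \ A) := by
        intro i hi
        simp only [mem_sdiff, mem_union] at hi ⊢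
        tauto
      have h7 : ((W x' w \ A).card : ℝ) ≤ (W x' w \ W x w).card + (W x w \ A).card := by
        exact_mod_cast (Finset.card_le_card h6).trans (Finset.card_union_le _ _)
      nlinarith
  · rw [cnt_false _ (fun x hx => hc hx.1.1)]
    simp only [Nat.cast_zero]
    positivity

lemma exists_good' {N s : ℕ} (hs : 0 < s) {ι : Type*} [Fintype ι]
    (Bad : ι → (Fin N → Fin s) → Prop) (β : ι → ℝ) (hβ : ∑ i, β i < 1)
    (h : ∀ i, (cnt (Bad i) : ℝ) ≤ (s : ℝ) ^ N * β i) :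
    ∃ x : Fin N → Fin s, ∀ i, ¬ Bad i x := by
  simp_rw [cnt_eq] at h
  by_contra hcon
  push Not at hcon
  have h1 : (univ : Finset (Fin N → Fin s)) ⊆ univ.biUnion (fun i : ι => univ.filter (Bad i)) := by
    intro x _
    obtain ⟨i, hi⟩ := hcon x
    simp only [mem_biUnion, mem_univ, mem_filter, true_and]
    exact ⟨i, hi⟩
  have h2 := Finset.card_le_card h1
  have h3 := h2.trans Finset.card_biUnion_le
  have h4 : ((univ : Finset (Fin N → Fin s)).card : ℝ) ≤ ∑ i : ι, ((univ.filter (Bad i)).card : ℝ) := by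
    exact_mod_cast h3
  have h5 : ∑ i : ι, ((univ.filter (Bad i)).card : ℝ) ≤ ∑ i : ι, (s : ℝ) ^ N * β i :=
    Finset.sum_le_sum (fun i _ => h i)
  rw [← Finset.mul_sum] at h5
  have h6 : ((univ : Finset (Fin N → Fin s)).card : ℝ) = (s : ℝ) ^ N := by
    rw [Finset.card_univ]; simp
  rw [h6] at h4
  have hsp : (0 : ℝ) < (s : ℝ) ^ N := by positivity
  nlinarith

/-- the sequence of slacks -/
lemma exists_slacks (m : ℕ) (D : ℝ) (hD : 0 < D) : ∃ δ : ℕ → ℝ, (∀ l, 0 < δ l) ∧ (∀ l, δ l ≤ D) ∧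
    (∀ l l', l ≤ l' → l' ≤ m → δ l ≤ δ l') ∧
    (∀ l, l < m → ∀ N : ℕ, (cnt (fun E : Finset (Fin N) => (E.card : ℝ) ≤ 2 * δ l * N) : ℝ)
      ≤ Real.exp ((δ (l + 1) / 2 ^ (m + 2)) ^ 2 / 4 / (m + 1) * N)) := by
  have hg : ∀ ε : ℝ, ∃ d : ℝ, 0 < d ∧ (0 < ε → ∀ N : ℕ,
      (cnt (fun E : Finset (Fin N) => (E.card : ℝ) ≤ d * N) : ℝ) ≤ Real.exp (ε * N)) := by
    intro ε
    by_cases hε : 0 < ε
    · obtain ⟨d, hd, h⟩ := entropy_small ε hε
      exact ⟨d, hd, fun _ => h⟩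
    · exact ⟨1, one_pos, fun h => absurd h hε⟩
  choose g hg1 hg2 using hg
  let G : ℝ → ℝ := fun d => min d (g ((d / 2 ^ (m + 2)) ^ 2 / 4 / (m + 1)) / 2)
  let d : ℕ → ℝ := fun i => Nat.rec D (fun _ p => G p) i
  have d0 : d 0 = D := rfl
  have dS : ∀ i, d (i + 1) = G (d i) := fun _ => rfl
  have dpos : ∀ i, 0 < d i := by
    intro i
    induction i with
    | zero => rw [d0]; exact hD
    | succ i ih =>
      rw [dS]
      show 0 < min (d i) _
      exact lt_min ih (by have := hg1 ((d i / 2 ^ (m + 2)) ^ 2 / 4 / (m + 1)); positivity)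
  have danti : Antitone d := antitone_nat_of_succ_le (fun i => by rw [dS]; exact min_le_left _ _)
  refine ⟨fun l => d (m - l), fun l => dpos _, ?_, ?_, ?_⟩
  · intro l
    have := danti (Nat.zero_le (m - l))
    rw [d0] at this
    exact this
  · intro l l' h1 h2
    exact danti (by omega)
  · intro l hl N
    have e1 : m - l = (m - (l + 1)) + 1 := by omega
    have e2 : d (m - l) ≤ g ((d (m - (l + 1)) / 2 ^ (m + 2)) ^ 2 / 4 / (m + 1)) / 2 := by
      rw [e1, dS]; exact min_le_right _ _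
    have hp := dpos (m - (l + 1))
    have e3 := hg2 ((d (m - (l + 1)) / 2 ^ (m + 2)) ^ 2 / 4 / (m + 1)) (by positivity) N
    refine le_trans ?_ e3
    have : cnt (fun E : Finset (Fin N) => (E.card : ℝ) ≤ 2 * d (m - l) * N)
        ≤ cnt (fun E : Finset (Fin N) => (E.card : ℝ) ≤ g ((d (m - (l + 1)) / 2 ^ (m + 2)) ^ 2 / 4 / (m + 1)) * N) := by
      rw [cnt_eq, cnt_eq]
      apply Finset.card_le_card
      intro E hE
      simp only [mem_filter, mem_univ, true_and] at hE ⊢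
      refine hE.trans ?_
      have hN : (0 : ℝ) ≤ N := by positivity
      apply mul_le_mul_of_nonneg_right _ hN
      linarith
    exact_mod_cast this

end Pool.Agent.H179_KR
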