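import Pool.Agent.H179_KR.Host

/-! Existence of good block assignments (union bound). -/

namespace Pool.Agent.H179_KR

open Finset

attribute [local instance] Classical.propDecidable

/-- good assignment of points to blocks, for a colouring `χ` -/
structure Good {N s c : ℕ} (m : ℕ) (δ : ℕ → ℝ) (ξ : ℝ) (χ : Finset (Fin N) → Finset (Fin N) → Fin c)
    (x : Fin N → Fin s) : Prop where
  bal : ∀ i : Fin s, N ≤ s * ((W x {i}).card + ⌊ξ * N⌋₊)
  tr : ∀ l, l < m → ∀ j, j ≤ m → ∀ (I : Finset (Fin m)) (wi : Fin m → Finset (Fin s))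
    (A : Fin m → Finset (Fin N)) (ε : Fin m → Fin c) (y w : Finset (Fin s)), y.card = w.card →
    (∀ i ∈ I, Disjoint (wi i) y ∧ Disjoint (wi i) w ∧ A i ⊆ W x (wi i) ∧
      ((W x (wi i) \ A i).card : ℝ) ≤ 2 * δ l * N) →
    Big x y (δ (l+1)) (δ (l+1) / 2 ^ j) {v | ∀ i ∈ I, χ (A i) v = ε i} →
    Big x w (δ (l+1)) (δ (l+1) / 2 ^ (j+1)) {v | ∀ i ∈ I, χ (A i) v = ε i}

lemma floor_half {a : ℝ} (ha : 0 < a) {N : ℕ} (hN : 2 / a ≤ N) : a / 2 * N ≤ (⌊a * N⌋₊ : ℝ) := by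
  have h1 : a * N - 1 < (⌊a * N⌋₊ : ℝ) := Nat.sub_one_lt_floor _
  have h2 : 2 ≤ a * N := by
    rw [div_le_iff₀ ha] at hN; linarith
  linarith

lemma exp_floor {a : ℝ} (ha : 0 < a) {b : ℝ} (hb : 0 < b) (hab : b ≤ a) {N : ℕ} (hN : 2 / b ≤ N) :
    Real.exp (-((⌊a * N⌋₊ : ℝ) ^ 2 / (2 * N))) ≤ Real.exp (-((b / 2) ^ 2 / 2 * N)) := by
  have hN0 : (0 : ℝ) < N := lt_of_lt_of_le (by positivity) hN
  apply Real.exp_le_exp.mpr
  have h0 : 2 / a ≤ N := le_trans (div_le_div_of_nonneg_left (by norm_num) hb hab) hN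
  have h1 := floor_half ha h0
  have h2 : b / 2 * N ≤ (⌊a * N⌋₊ : ℝ) := by
    refine le_trans ?_ h1
    apply mul_le_mul_of_nonneg_right _ hN0.le
    linarith
  have h3 : (b / 2 * N) ^ 2 ≤ (⌊a * N⌋₊ : ℝ) ^ 2 := pow_le_pow_left₀ (by positivity) h2 2
  have h4 : (b / 2) ^ 2 / 2 * N = (b / 2 * N) ^ 2 / (2 * N) := by
    field_simp
  rw [h4]
  have : (b / 2 * N) ^ 2 / (2 * N) ≤ (⌊a * N⌋₊ : ℝ) ^ 2 / (2 * N) :=
    div_le_div_of_nonneg_right h3 (by positivity)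
  linarith

theorem exists_host (c s m : ℕ) (hs : 0 < s) (D ξ : ℝ) (hD : 0 < D) (hξ : 0 < ξ) :
    ∃ δ : ℕ → ℝ, (∀ l, 0 < δ l) ∧ (∀ l, δ l ≤ D) ∧ (∀ l l', l ≤ l' → l' ≤ m → δ l ≤ δ l') ∧
      ∃ N₀ : ℕ, ∀ N : ℕ, N₀ ≤ N → ∀ χ : Finset (Fin N) → Finset (Fin N) → Fin c,
        ∃ x : Fin N → Fin s, Good m δ ξ χ x := by
  obtain ⟨δ, h1, h2, h3, h4⟩ := exists_slacks m D hD
  refine ⟨δ, h1, h2, h3, ?_⟩
  let P := Fin (m + 1) × Finset (Fin m) × (Fin m → Finset (Fin s)) × (Fin m → Fin c) ×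
    Finset (Fin s) × Finset (Fin s)
  set K : ℝ := m * (Fintype.card P : ℝ) + s * s with hK
  set b : ℝ := δ 0 / 2 ^ (m + 1) with hb
  have hb0 : 0 < b := by rw [hb]; have := h1 0; positivity
  set e₀ : ℝ := min ((b / 2) ^ 2 / 4) ((ξ / 2) ^ 2 / 2) with he₀
  have he0 : 0 < e₀ := by apply lt_min <;> positivity
  obtain ⟨M₀, hM₀⟩ := exists_M K e₀ he0
  obtain ⟨M₁, hM₁⟩ := exists_nat_gt (2 / b)
  obtain ⟨M₂, hM₂⟩ := exists_nat_gt (2 / ξ)
  refine ⟨M₀ + M₁ + M₂ + 1, ?_⟩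
  intro N hN χ
  have hN1 : 2 / b ≤ (N : ℝ) := hM₁.le.trans (by exact_mod_cast (by omega))
  have hN2 : 2 / ξ ≤ (N : ℝ) := hM₂.le.trans (by exact_mod_cast (by omega))
  have hNp : 0 < N := by omega
  have hNr : (0 : ℝ) < N := by exact_mod_cast hNp
  have hK1 := hM₀ N (by omega)
  let ET : ℕ → Type := fun l => {E : Finset (Fin N) // (E.card : ℝ) ≤ 2 * δ l * N}
  let ι := (Σ l : Fin m, P × (Fin m → ET l)) ⊕ (Fin s × Fin s)
  let Bad : ι → (Fin N → Fin s) → Prop := fun i =>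
    match i with
    | Sum.inl ⟨l, (j, I, wi, ε, y, w), Ei⟩ => fun x =>
        ((y.card = w.card ∧ ∀ i ∈ I, Disjoint (wi i) y ∧ Disjoint (wi i) w) ∧
        Big x y (δ (l + 1)) (δ (l + 1) / 2 ^ (j : ℕ)) {v | ∀ i ∈ I, χ (W x (wi i) \ (Ei i).1) v = ε i}) ∧
        ¬ Big x w (δ (l + 1)) (δ (l + 1) / 2 ^ (j : ℕ) / 2) {v | ∀ i ∈ I, χ (W x (wi i) \ (Ei i).1) v = ε i}
    | Sum.inr (i, i') => fun x => N ≤ s * (W x {i}).card ∧ ¬ N ≤ s * ((W x {i'}).card + ⌊ξ * N⌋₊)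
  let bl : ℕ → ℝ := fun l => δ (l + 1) / 2 ^ (m + 1)
  have hbl : ∀ l, 0 < bl l := fun l => by
    show 0 < δ (l + 1) / 2 ^ (m + 1)
    have := h1 (l + 1); positivity
  have hbb : ∀ l, l < m → b ≤ bl l := fun l hl => by
    show δ 0 / 2 ^ (m + 1) ≤ δ (l + 1) / 2 ^ (m + 1)
    exact div_le_div_of_nonneg_right (h3 0 (l + 1) (by omega) (by omega)) (by positivity)
  let β : ι → ℝ := fun i =>
    match i with
    | Sum.inl ⟨l, _⟩ => Real.exp (-((bl l / 2) ^ 2 / 2 * N))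
    | Sum.inr _ => Real.exp (-((ξ / 2) ^ 2 / 2 * N))
  have hcardE : ∀ l, l < m → (Fintype.card (ET l) : ℝ) ≤ Real.exp ((bl l / 2) ^ 2 / 4 / (m + 1) * N) := by
    intro l hl
    have := h4 l hl N
    rw [cnt_eq] at this
    have e1 : Fintype.card (ET l) = (univ.filter (fun E : Finset (Fin N) => (E.card : ℝ) ≤ 2 * δ l * N)).card := by
      exact Fintype.card_subtype _
    rw [e1]
    refine this.trans (le_of_eq ?_)
    congr 1
    show (δ (l + 1) / 2 ^ (m + 2)) ^ 2 / 4 / (m + 1) * N = (δ (l + 1) / 2 ^ (m + 1) / 2) ^ 2 / 4 / (m + 1) * N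
    congr 4
    rw [div_div, pow_succ]
  have hsum : ∑ i, β i < 1 := by
    have hs1 : ∑ i, β i = (∑ l : Fin m, (Fintype.card P : ℝ) * (Fintype.card (ET l) : ℝ) ^ m *
        Real.exp (-((bl l / 2) ^ 2 / 2 * N))) + s * s * Real.exp (-((ξ / 2) ^ 2 / 2 * N)) := by
      rw [Fintype.sum_sum_type, Fintype.sum_sigma]
      congr 1
      · apply Finset.sum_congr rfl
        intro l _
        show ∑ _i : P × (Fin m → ET l), Real.exp (-((bl l / 2) ^ 2 / 2 * N)) = _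
        rw [Finset.sum_const, Finset.card_univ, Fintype.card_prod, nsmul_eq_mul]
        have : Fintype.card (Fin m → ET l) = Fintype.card (ET l) ^ m := by
          rw [Fintype.card_fun, Fintype.card_fin]
        rw [this]
        push_cast
        ring
      · show ∑ _i : Fin s × Fin s, Real.exp (-((ξ / 2) ^ 2 / 2 * N)) = _
        rw [Finset.sum_const, Finset.card_univ, Fintype.card_prod, Fintype.card_fin, nsmul_eq_mul]
        push_cast; ring
    rw [hs1]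
    refine lt_of_le_of_lt ?_ hK1
    have hl1 : ∀ l : Fin m, (Fintype.card P : ℝ) * (Fintype.card (ET l) : ℝ) ^ m *
        Real.exp (-((bl l / 2) ^ 2 / 2 * N)) ≤ (Fintype.card P : ℝ) * Real.exp (-(e₀ * N)) := by
      intro l
      have q1 : (Fintype.card (ET l) : ℝ) ^ m ≤ Real.exp ((bl l / 2) ^ 2 / 4 * N) := by
        calc (Fintype.card (ET l) : ℝ) ^ m ≤ (Real.exp ((bl l / 2) ^ 2 / 4 / (m + 1) * N)) ^ m :=
              pow_le_pow_left₀ (by positivity) (hcardE l l.2) m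
          _ = Real.exp (m * ((bl l / 2) ^ 2 / 4 / (m + 1) * N)) := by rw [Real.exp_nat_mul]
          _ ≤ Real.exp ((bl l / 2) ^ 2 / 4 * N) := by
            apply Real.exp_le_exp.mpr
            have hm : (m : ℝ) / (m + 1) ≤ 1 := by
              rw [div_le_one (by positivity)]; linarith
            have hnn : 0 ≤ (bl l / 2) ^ 2 / 4 * N := by positivity
            calc m * ((bl l / 2) ^ 2 / 4 / (m + 1) * N) = (m : ℝ) / (m + 1) * ((bl l / 2) ^ 2 / 4 * N) := by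
                  field_simp
              _ ≤ 1 * ((bl l / 2) ^ 2 / 4 * N) := mul_le_mul_of_nonneg_right hm hnn
              _ = _ := one_mul _
      rw [mul_assoc]
      apply mul_le_mul_of_nonneg_left _ (by positivity)
      calc (Fintype.card (ET l) : ℝ) ^ m * Real.exp (-((bl l / 2) ^ 2 / 2 * N))
          ≤ Real.exp ((bl l / 2) ^ 2 / 4 * N) * Real.exp (-((bl l / 2) ^ 2 / 2 * N)) :=
            mul_le_mul_of_nonneg_right q1 (Real.exp_pos _).le
        _ = Real.exp (-((bl l / 2) ^ 2 / 4 * N)) := by rw [← Real.exp_add]; congr 1; ring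
        _ ≤ Real.exp (-(e₀ * N)) := by
          apply Real.exp_le_exp.mpr
          have g1 : e₀ ≤ (b / 2) ^ 2 / 4 := min_le_left _ _
          have g2 : (b / 2) ^ 2 ≤ (bl l / 2) ^ 2 :=
            pow_le_pow_left₀ (by positivity) (by have := hbb l l.2; linarith) 2
          have g3 : e₀ * N ≤ (bl l / 2) ^ 2 / 4 * N := by
            apply mul_le_mul_of_nonneg_right _ hNr.le
            linarith
          linarith
    have hl2 : Real.exp (-((ξ / 2) ^ 2 / 2 * N)) ≤ Real.exp (-(e₀ * N)) := by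
      apply Real.exp_le_exp.mpr
      have g1 : e₀ ≤ (ξ / 2) ^ 2 / 2 := min_le_right _ _
      have g3 : e₀ * N ≤ (ξ / 2) ^ 2 / 2 * N := mul_le_mul_of_nonneg_right g1 hNr.le
      linarith
    calc _ ≤ (∑ _l : Fin m, (Fintype.card P : ℝ) * Real.exp (-(e₀ * N))) + s * s * Real.exp (-(e₀ * N)) := by
          apply add_le_add
          · exact Finset.sum_le_sum (fun l _ => hl1 l)
          · exact mul_le_mul_of_nonneg_left hl2 (by positivity)
      _ = K * Real.exp (-(e₀ * N)) := by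
        rw [Finset.sum_const, Finset.card_univ, Fintype.card_fin, nsmul_eq_mul, hK]; ring
  obtain ⟨x, hx⟩ := exists_good' hs Bad β hsum (by
    rintro (⟨l, ⟨j, I, wi, ε, y, w⟩, Ei⟩ | ⟨i, i'⟩)
    · have := tr_conc hNp χ (δ (l + 1)) (δ (l + 1) / 2 ^ (j : ℕ)) (by have := h1 (l+1); positivity)
        I wi (fun i => (Ei i).1) ε y w
      refine this.trans ?_
      apply mul_le_mul_of_nonneg_left _ (by positivity)
      show _ ≤ Real.exp (-((bl l / 2) ^ 2 / 2 * N))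
      refine exp_floor (by have := h1 (l+1); positivity) (hbl l) ?_ ?_
      · show δ (l + 1) / 2 ^ (m + 1) ≤ δ (l + 1) / 2 ^ (j : ℕ) / 2
        rw [div_div, ← pow_succ]
        apply div_le_div_of_nonneg_left (h1 _).le (by positivity)
        apply pow_le_pow_right₀ (by norm_num)
        have := j.2; omega
      · refine le_trans ?_ hN1
        exact div_le_div_of_nonneg_left (by norm_num) hb0 (hbb l l.2)
    · refine (block_conc N s ⌊ξ * N⌋₊ hNp i i').trans ?_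
      apply mul_le_mul_of_nonneg_left _ (by positivity)
      show _ ≤ Real.exp (-((ξ / 2) ^ 2 / 2 * N))
      exact exp_floor hξ hξ le_rfl hN2)
  refine ⟨x, ?_, ?_⟩
  · intro i
    obtain ⟨i0, hi0⟩ := exists_big_block hs x
    have := hx (Sum.inr (i0, i))
    by_contra hcon
    exact this ⟨hi0, hcon⟩
  · intro l hl j hj I wi A ε y w hyw hI hBig
    let Ei : Fin m → ET l := fun i =>
      if h : (((W x (wi i) \ A i).card : ℝ) ≤ 2 * δ l * N) then ⟨W x (wi i) \ A i, h⟩ else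
        ⟨∅, by have := h1 l; simp; positivity⟩
    have hEi : ∀ i ∈ I, W x (wi i) \ (Ei i).1 = A i := by
      intro i hi
      obtain ⟨_, _, g3, g4⟩ := hI i hi
      show W x (wi i) \ (if h : (((W x (wi i) \ A i).card : ℝ) ≤ 2 * δ l * N) then
        (⟨W x (wi i) \ A i, h⟩ : ET l) else _).1 = A i
      rw [dif_pos g4]
      show W x (wi i) \ (W x (wi i) \ A i) = A i
      exact Finset.sdiff_sdiff_eq_self g3
    have hset : {v | ∀ i ∈ I, χ (W x (wi i) \ (Ei i).1) v = ε i} = {v | ∀ i ∈ I, χ (A i) v = ε i} := by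
      ext v
      constructor
      · intro h i hi; rw [← hEi i hi]; exact h i hi
      · intro h i hi; rw [hEi i hi]; exact h i hi
    have hh := hx (Sum.inl ⟨⟨l, hl⟩, (⟨j, by omega⟩, I, wi, ε, y, w), Ei⟩)
    have hh' : ¬ (((y.card = w.card ∧ ∀ i ∈ I, Disjoint (wi i) y ∧ Disjoint (wi i) w) ∧
        Big x y (δ (l + 1)) (δ (l + 1) / 2 ^ j) {v | ∀ i ∈ I, χ (W x (wi i) \ (Ei i).1) v = ε i}) ∧
        ¬ Big x w (δ (l + 1)) (δ (l + 1) / 2 ^ j / 2) {v | ∀ i ∈ I, χ (W x (wi i) \ (Ei i).1) v = ε i}) := hh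
    rw [hset] at hh'
    by_contra hcon
    apply hh'
    refine ⟨⟨⟨hyw, fun i hi => ⟨(hI i hi).1, (hI i hi).2.1⟩⟩, hBig⟩, ?_⟩
    rw [div_div, ← pow_succ]
    exact hcon

end Pool.Agent.H179_KR
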