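import Pool.Agent.H179_KR.Cube

/-! Entropy estimate, involutions, counting principle, vertex-Ramsey property of Kneser systems. -/

namespace Pool.Agent.H179_KR

open Finset

attribute [local instance] Classical.propDecidable

/-- number of elements with a property -/
noncomputable def cnt {α : Type*} [Fintype α] (P : α → Prop) : ℕ :=
  (@Finset.filter α P (fun _ => Classical.propDecidable _) univ).card

lemma cnt_eq {α : Type*} [Fintype α] (P : α → Prop) [DecidablePred P] :
    cnt P = (univ.filter P).card := by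
  unfold cnt; congr

theorem swap_conc' (N s t : ℕ) (hN : 0 < N) (σ : Fin s → Fin s) (hσ : ∀ u, σ (σ u) = u)
    (P Q : (Fin N → Fin s) → Prop)
    (h : ∀ x x' : Fin N → Fin s, (∀ i, x' i = x i ∨ x' i = σ (x i)) → hammingDist x x' ≤ t →
      P (σ ∘ x) → Q x') :
    (cnt (fun x : Fin N → Fin s => P x ∧ ¬ Q x) : ℝ)
      ≤ (s : ℝ) ^ N * Real.exp (-((t : ℝ) ^ 2 / (2 * N))) := by
  rw [cnt_eq]
  exact swap_conc N s t hN σ hσ P Q h

/-- the points lying in the blocks of `w` -/
def W {N s : ℕ} (x : Fin N → Fin s) (w : Finset (Fin s)) : Finset (Fin N) :=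
  univ.filter (fun i => x i ∈ w)

lemma mem_W {N s : ℕ} (x : Fin N → Fin s) (w : Finset (Fin s)) (i : Fin N) : i ∈ W x w ↔ x i ∈ w := by
  simp [W]

lemma W_disj {N s : ℕ} (x : Fin N → Fin s) {w w' : Finset (Fin s)} (h : Disjoint w w') :
    Disjoint (W x w) (W x w') := by
  rw [Finset.disjoint_left]
  intro i hi hi'
  rw [mem_W] at hi hi'
  exact (Finset.disjoint_left.mp h) hi hi'

lemma W_comp {N s : ℕ} (x : Fin N → Fin s) (σ : Fin s → Fin s) {w w' : Finset (Fin s)}
    (h : ∀ u, σ u ∈ w ↔ u ∈ w') : W (σ ∘ x) w = W x w' := by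
  ext i; simp [mem_W, h]

lemma W_sdiff_card {N s : ℕ} (x x' : Fin N → Fin s) (w : Finset (Fin s)) (t : ℕ)
    (h : hammingDist x x' ≤ t) : (W x w \ W x' w).card ≤ t := by
  refine le_trans (Finset.card_le_card ?_) h
  intro i hi
  simp only [mem_sdiff, mem_W] at hi
  simp only [mem_filter, mem_univ, true_and]
  intro he
  rw [he] at hi
  exact hi.2 hi.1

/-- an involution exchanging two sets of blocks of the same size -/
lemma exists_inv {s : ℕ} (w w' : Finset (Fin s)) (hc : w.card = w'.card) :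
    ∃ σ : Fin s → Fin s, (∀ u, σ (σ u) = u) ∧ (∀ u, σ u ∈ w ↔ u ∈ w') ∧
      (∀ u, u ∉ w → u ∉ w' → σ u = u) := by
  have hcard : (w \ w').card = (w' \ w).card := by
    have h1 := Finset.card_sdiff_add_card_inter w w'
    have h2 := Finset.card_sdiff_add_card_inter w' w
    rw [Finset.inter_comm] at h2
    omega
  let e : {u // u ∈ w \ w'} ≃ {u // u ∈ w' \ w} := Finset.equivOfCardEq hcard
  let σ : Fin s → Fin s := fun u =>
    if h : u ∈ w \ w' then (e ⟨u, h⟩).1 else if h' : u ∈ w' \ w then (e.symm ⟨u, h'⟩).1 else u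
  have d1 : ∀ u, u ∈ w \ w' → σ u ∈ w' \ w := by
    intro u hu
    show (if h : u ∈ w \ w' then (e ⟨u, h⟩).1 else _) ∈ w' \ w
    rw [dif_pos hu]; exact (e ⟨u, hu⟩).2
  have hnot : ∀ u, u ∈ w' \ w → u ∉ w \ w' := by
    intro u hu hu'
    simp only [mem_sdiff] at hu hu'
    exact hu.2 hu'.1
  have d2 : ∀ u, u ∈ w' \ w → σ u ∈ w \ w' := by
    intro u hu
    show (if h : u ∈ w \ w' then (e ⟨u, h⟩).1 else _) ∈ w \ w'
    rw [dif_neg (hnot u hu), dif_pos hu]; exact (e.symm ⟨u, hu⟩).2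
  have d3 : ∀ u, u ∉ w \ w' → u ∉ w' \ w → σ u = u := by
    intro u h1 h2
    show (if h : u ∈ w \ w' then (e ⟨u, h⟩).1 else _) = u
    rw [dif_neg h1, dif_neg h2]
  refine ⟨σ, ?_, ?_, ?_⟩
  · intro u
    by_cases h1 : u ∈ w \ w'
    · have h2 := d1 u h1
      have e1 : σ u = (e ⟨u, h1⟩).1 := by
        show (if h : u ∈ w \ w' then (e ⟨u, h⟩).1 else _) = _
        rw [dif_pos h1]
      show (if h : σ u ∈ w \ w' then (e ⟨σ u, h⟩).1 else
        if h' : σ u ∈ w' \ w then (e.symm ⟨σ u, h'⟩).1 else σ u) = u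
      rw [dif_neg (hnot _ h2), dif_pos h2]
      have : (⟨σ u, h2⟩ : {u // u ∈ w' \ w}) = e ⟨u, h1⟩ := Subtype.ext e1
      rw [this, Equiv.symm_apply_apply]
    · by_cases h2 : u ∈ w' \ w
      · have h3 := d2 u h2
        have e1 : σ u = (e.symm ⟨u, h2⟩).1 := by
          show (if h : u ∈ w \ w' then (e ⟨u, h⟩).1 else
            if h' : u ∈ w' \ w then (e.symm ⟨u, h'⟩).1 else u) = _
          rw [dif_neg h1, dif_pos h2]
        show (if h : σ u ∈ w \ w' then (e ⟨σ u, h⟩).1 else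
          if h' : σ u ∈ w' \ w then (e.symm ⟨σ u, h'⟩).1 else σ u) = u
        rw [dif_pos h3]
        have : (⟨σ u, h3⟩ : {u // u ∈ w \ w'}) = e.symm ⟨u, h2⟩ := Subtype.ext e1
        rw [this, Equiv.apply_symm_apply]
      · rw [d3 u h1 h2, d3 u h1 h2]
  · intro u
    by_cases h1 : u ∈ w \ w'
    · have h2 := d1 u h1
      simp only [mem_sdiff] at h1 h2
      tauto
    · by_cases h2 : u ∈ w' \ w
      · have h3 := d2 u h2
        simp only [mem_sdiff] at h2 h3
        tauto
      · rw [d3 u h1 h2]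
        simp only [mem_sdiff] at h1 h2
        tauto
  · intro u h1 h2
    apply d3
    · simp only [mem_sdiff]; tauto
    · simp only [mem_sdiff]; tauto

lemma exists_good {N s : ℕ} (hs : 0 < s) {ι : Type*} [Fintype ι]
    (Bad : ι → (Fin N → Fin s) → Prop) (β : ℝ) (hβ : (Fintype.card ι : ℝ) * β < 1)
    (h : ∀ i, (cnt (Bad i) : ℝ) ≤ (s : ℝ) ^ N * β) :
    ∃ x : Fin N → Fin s, ∀ i, ¬ Bad i x := by
  simp_rw [cnt_eq] at h
  by_contra hcon
  push Not at hcon
  have h1 : (univ : Finset (Fin N → Fin s)) ⊆ univ.biUnion (fun i : ι => univ.filter (Bad i)) := by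
    intro x _
    obtain ⟨i, hi⟩ := hcon x
    simp only [mem_biUnion, mem_univ, mem_filter, true_and]
    exact ⟨i, hi⟩
  have h2 := Finset.card_le_card h1
  have h3 := h2.trans Finset.card_biUnion_le
  have h4 : ((univ : Finset (Fin N → Fin s)).card : ℝ) ≤ ∑ i : ι, ((univ.filter (Bad i)).card : ℝ) := by
    exact_mod_cast h3
  have h5 : ∑ i : ι, ((univ.filter (Bad i)).card : ℝ) ≤ ∑ _i : ι, (s : ℝ) ^ N * β :=
    Finset.sum_le_sum (fun i _ => h i)
  rw [Finset.sum_const, Finset.card_univ (α := ι)] at h5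
  have h6 : ((univ : Finset (Fin N → Fin s)).card : ℝ) = (s : ℝ) ^ N := by
    rw [Finset.card_univ]; simp
  rw [h6] at h4
  have hsp : (0 : ℝ) < (s : ℝ) ^ N := by positivity
  have h7 : (s : ℝ) ^ N ≤ (s : ℝ) ^ N * ((Fintype.card ι : ℝ) * β) := by
    calc (s : ℝ) ^ N ≤ _ := h4
      _ ≤ _ := h5
      _ = _ := by rw [nsmul_eq_mul]; ring
  nlinarith

lemma entropy_small (ε : ℝ) (hε : 0 < ε) : ∃ δ : ℝ, 0 < δ ∧ ∀ N : ℕ,
    (cnt (fun E : Finset (Fin N) => (E.card : ℝ) ≤ δ * N) : ℝ) ≤ Real.exp (ε * N) := by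
  set z : ℝ := min (ε / 2) (1 / 2) with hz
  have hz0 : 0 < z := by
    apply lt_min <;> linarith
  have hz1 : z < 1 := lt_of_le_of_lt (min_le_right _ _) (by norm_num)
  have hzε : z ≤ ε / 2 := min_le_left _ _
  set L : ℝ := - Real.log z with hL
  have hL0 : 0 < L := by
    have := Real.log_neg hz0 hz1
    linarith
  refine ⟨ε / (2 * L), by positivity, ?_⟩
  intro N
  rw [cnt_eq]
  set F := univ.filter (fun E : Finset (Fin N) => (E.card : ℝ) ≤ ε / (2 * L) * N) with hF
  have h1 : ∀ E ∈ F, (1 : ℝ) ≤ z ^ E.card * Real.exp (ε / 2 * N) := by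
    intro E hE
    simp only [hF, mem_filter, mem_univ, true_and] at hE
    have e1 : z ^ E.card = Real.exp (-(L * E.card)) := by
      rw [← Real.exp_log (pow_pos hz0 E.card), Real.log_pow]
      congr 1; rw [hL]; ring
    rw [e1, ← Real.exp_add]
    apply Real.one_le_exp
    have : L * (E.card : ℝ) ≤ L * (ε / (2 * L) * N) := mul_le_mul_of_nonneg_left hE hL0.le
    have e2 : L * (ε / (2 * L) * N) = ε / 2 * N := by field_simp
    linarith
  have h2 : (F.card : ℝ) ≤ ∑ E ∈ F, z ^ E.card * Real.exp (ε / 2 * N) := by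
    rw [Finset.card_eq_sum_ones]; push_cast
    exact Finset.sum_le_sum h1
  have h3 : ∑ E ∈ F, z ^ E.card * Real.exp (ε / 2 * N)
      ≤ ∑ E : Finset (Fin N), z ^ E.card * Real.exp (ε / 2 * N) :=
    Finset.sum_le_sum_of_subset_of_nonneg (Finset.subset_univ _) (fun _ _ _ => by positivity)
  have h4 : ∑ E : Finset (Fin N), z ^ E.card * Real.exp (ε / 2 * N) = (z + 1) ^ N * Real.exp (ε / 2 * N) := by
    rw [← Finset.sum_mul]
    congr 1
    have := Finset.sum_pow_mul_eq_add_pow z 1 (univ : Finset (Fin N))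
    simp only [one_pow, mul_one, card_univ, Fintype.card_fin, Finset.powerset_univ] at this
    exact this
  have h5 : (z + 1) ^ N ≤ Real.exp (ε / 2 * N) := by
    have : z + 1 ≤ Real.exp (ε / 2) := (Real.add_one_le_exp z).trans (Real.exp_le_exp.mpr hzε)
    calc (z + 1) ^ N ≤ (Real.exp (ε / 2)) ^ N := pow_le_pow_left₀ (by linarith) this N
      _ = Real.exp (ε / 2 * N) := by rw [← Real.exp_nat_mul]; congr 1; ring
  calc (F.card : ℝ) ≤ _ := h2
    _ ≤ _ := h3
    _ = _ := h4
    _ ≤ Real.exp (ε / 2 * N) * Real.exp (ε / 2 * N) := by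
      apply mul_le_mul_of_nonneg_right h5 (Real.exp_pos _).le
    _ = Real.exp (ε * N) := by rw [← Real.exp_add]; congr 1; ring

/-- block sizes are balanced up to an error `t`, for most `x` (bad event for a pair of blocks) -/
lemma block_conc (N s t : ℕ) (hN : 0 < N) (i i' : Fin s) :
    (cnt (fun x : Fin N → Fin s => N ≤ s * (W x {i}).card ∧ ¬ N ≤ s * ((W x {i'}).card + t)) : ℝ)
      ≤ (s : ℝ) ^ N * Real.exp (-((t : ℝ) ^ 2 / (2 * N))) := by
  obtain ⟨σ, h1, h2, _⟩ := exists_inv ({i} : Finset (Fin s)) {i'} (by simp)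
  refine swap_conc' N s t hN σ h1 (fun x => N ≤ s * (W x {i}).card)
    (fun x => N ≤ s * ((W x {i'}).card + t)) ?_
  intro x x' _ hd hP
  have hP' : N ≤ s * (W (σ ∘ x) {i}).card := hP
  rw [W_comp x σ h2] at hP'
  have := W_sdiff_card x x' {i'} t hd
  have h3 : (W x {i'}).card ≤ (W x' {i'}).card + t := by
    have h4 := Finset.card_le_card_sdiff_add_card (s := W x {i'}) (t := W x' {i'})
    omega
  show N ≤ s * ((W x' {i'}).card + t)
  calc N ≤ s * (W x {i'}).card := hP'
    _ ≤ s * ((W x' {i'}).card + t) := Nat.mul_le_mul_left s h3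

lemma exists_big_block {N s : ℕ} (hs : 0 < s) (x : Fin N → Fin s) : ∃ i : Fin s, N ≤ s * (W x {i}).card := by
  by_contra hcon
  push Not at hcon
  have h1 : ∑ i : Fin s, (W x {i}).card = N := by
    have := Finset.card_eq_sum_card_fiberwise (f := x) (s := (univ : Finset (Fin N))) (t := univ) (by simp)
    simp only [card_univ, Fintype.card_fin] at this
    refine Eq.trans ?_ this.symm
    apply Finset.sum_congr rfl
    intro i _
    congr 1
    ext j; simp [mem_W]
  have h2 : ∑ i : Fin s, s * (W x {i}).card < ∑ _i : Fin s, N := by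
    apply Finset.sum_lt_sum_of_nonempty
    · exact ⟨⟨0, hs⟩, mem_univ _⟩
    · intro i _; exact hcon i
  rw [← Finset.mul_sum, h1, Finset.sum_const, Finset.card_univ, Fintype.card_fin, smul_eq_mul] at h2
  exact lt_irrefl _ h2

lemma W_card {N s : ℕ} (x : Fin N → Fin s) (w : Finset (Fin s)) :
    (W x w).card = ∑ i ∈ w, (W x {i}).card := by
  have h : W x w = w.biUnion (fun i => W x {i}) := by
    ext j; simp [mem_W]
  rw [h, Finset.card_biUnion]
  intro i _ j _ hij
  exact W_disj x (by simpa using hij)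

end Pool.Agent.H179_KR
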