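import Pool.Agent.H179_KR.Core

/-! The Ramsey theorem for pairs of large subsets of `Fin N`. -/

namespace Pool.Agent.H179_KR

open Finset Filter

attribute [local instance] Classical.propDecidable

lemma ev_list {β ι : Type*} (F : Filter ι) (L : List β) (P : ι → β → Prop)
    (h : ∀ q ∈ L, ∀ᶠ m in F, P m q) : ∀ᶠ m in F, ∀ q ∈ L, P m q := by
  induction L with
  | nil => exact Filter.Eventually.of_forall (fun m p hp => absurd hp List.not_mem_nil)
  | cons r L ih =>
    filter_upwards [ih (fun q hq => h q (List.mem_cons_of_mem _ hq)), h r List.mem_cons_self] with m h1 h2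
    intro p hp
    rcases List.mem_cons.mp hp with rfl | hp
    · exact h2
    · exact h1 p hp

lemma ev_pairwise {β ι : Type*} (F : Filter ι) (L : List β) (Q : β → β → Prop) (P : ι → β → β → Prop)
    (h : L.Pairwise (fun p q => Q p q ∧ ∀ᶠ m in F, P m p q)) :
    ∀ᶠ m in F, L.Pairwise (fun p q => Q p q ∧ P m p q) := by
  induction L with
  | nil => exact Filter.Eventually.of_forall (fun m => List.Pairwise.nil)
  | cons r L ih =>
    rw [List.pairwise_cons] at h
    filter_upwards [ih h.2, ev_list F L (fun m q => P m r q) (fun q hq => (h.1 q hq).2)] with m h1 h2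
    rw [List.pairwise_cons]
    exact ⟨fun q hq => ⟨(h.1 q hq).1, h2 q hq⟩, h1⟩

theorem core (c n : ℕ) (α : ℝ) (hα : ((n + 1 : ℕ) : ℝ) < α) :
    ∃ N₁ : ℕ, ∀ N : ℕ, N₁ ≤ N → ∀ χ : Finset (Fin N) → Finset (Fin N) → Fin c,
      ∃ (a : Fin c) (L : List (Finset (Fin N))), L.length = n + 1 ∧ (∀ A ∈ L, (N : ℝ) ≤ α * A.card) ∧
        L.Pairwise (fun A B => Disjoint A B ∧ χ A B = a) := by
  have : Nonempty (Finset (Fin c)) := ⟨∅⟩
  push_cast at hα
  obtain ⟨s₀, r, hr, hs₀, hrich⟩ := rich_exists (Finset (Fin c)) n (α - 1) (by linarith)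
  have hαpos : 0 < α := by
    have : (0 : ℝ) ≤ n := by positivity
    linarith
  set s : ℕ := s₀ + r with hs
  have hs0 : 0 < s := by omega
  have hsr : (s : ℝ) < α * r := by rw [hs]; push_cast; linarith
  have hrR : (0 : ℝ) < r := by exact_mod_cast hr
  have hsR : (0 : ℝ) < s := by exact_mod_cast hs0
  set g : ℝ := r / s - 1 / α with hg
  have hg0 : 0 < g := by
    rw [hg, sub_pos, div_lt_div_iff₀ hαpos hsR]
    linarith
  by_contra hcon
  push Not at hcon
  -- hosts
  have H := fun m => exists_host c s m hs0 (g / 4) (g / (2 * r)) (by positivity) (by positivity)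
  choose δ hδ1 hδ2 hδ3 M hM using H
  choose N hN χ hχ using (fun m => hcon (M m))
  choose x hx using (fun m => hM m (N m) (hN m) (χ m))
  -- root and regions
  set y : Finset (Fin s) := univ.map (Fin.natAddEmb s₀) with hy
  have hyc : y.card = r := by simp [hy]
  let ψ : Finset (Fin s₀) → Finset (Fin s) := fun w => w.map (Fin.castAddEmb r)
  have hψc : ∀ w, (ψ w).card = w.card := fun w => by simp [ψ]
  have hψ0 : ∀ w, Disjoint (ψ w) y := by
    intro w
    rw [Finset.disjoint_left]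
    intro i hi hi'
    simp only [ψ, Finset.mem_map, hy, Finset.mem_univ, true_and] at hi hi'
    obtain ⟨j, _, hj⟩ := hi
    obtain ⟨j', hj'⟩ := hi'
    have h1 : (i : ℕ) = j := by rw [← hj]; rfl
    have h2 : (i : ℕ) = s₀ + j' := by rw [← hj']; rfl
    omega
  set R : Set (Finset (Fin s)) := {w | w.card = r ∧ Disjoint w y} with hR
  have hRrich : Rich (Finset (Fin c)) n R := by
    refine Rich.map ψ n {w | w.card = r} R ?_ ?_ hrich
    · intro w hw
      exact ⟨by rw [hψc]; exact hw, hψ0 w⟩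
    · intro w _ w' _ hww
      simp only [ψ]
      rwa [Finset.disjoint_map]
  obtain ⟨𝒲, hW⟩ := exists_W N x δ hδ1 y
  obtain ⟨a, L, hL1, hL2, hL3⟩ := claim N χ x δ hδ1 hδ3 (g / (2 * r)) hx y 𝒲 hW n [] R
    (fun w hw => ⟨by rw [hyc]; exact hw.1, hw.2⟩) (fun p hp => absurd hp List.not_mem_nil) hRrich
  have hS : {q : Pt N | ∀ p ∈ L, χ q.2.1 (p.2 q.2.1) q.2.2 = a} ∈ 𝒲 := by
    have : ∀ᶠ q in (𝒲 : Filter (Pt N)), ∀ p ∈ L, χ q.2.1 (p.2 q.2.1) q.2.2 = a := by
      apply ev_list
      intro p hp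
      rw [← (hL2 p hp).2.2.1]
      exact Psi_spec χ 𝒲 p.2
    exact this
  obtain ⟨j, hj⟩ := hW _ hS
  obtain ⟨l, hl⟩ := hj.exists
  have hobj : ∀ᶠ m in (U : Filter ℕ), ∀ p ∈ L, p.2 m ⊆ W (x m) p.1 ∧
      ((W (x m) p.1 \ p.2 m).card : ℝ) ≤ g / 2 * N m := by
    apply ev_list
    intro p hp
    obtain ⟨l', hl'⟩ := (hL2 p hp).2.1
    filter_upwards [hl'] with m hm
    refine ⟨hm.1, hm.2.trans ?_⟩
    have hN : (0 : ℝ) ≤ N m := by positivity
    apply mul_le_mul_of_nonneg_right _ hN
    have := hδ2 m l'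
    linarith
  obtain ⟨m, hm1, hm2, hm3⟩ := (hl.and (hobj.and (ev_pairwise _ L _ _ hL3))).exists
  obtain ⟨C, hC1, hC2, hC3⟩ := Big_nonempty (by have := hδ1 m l; positivity) hm1
  have hC1' : ∀ p ∈ L, χ m (p.2 m) C = a := hC1
  have hNm : (0 : ℝ) ≤ N m := by positivity
  have hC3' : ((W (x m) y \ C).card : ℝ) ≤ g / 2 * N m := by
    refine hC3.trans ?_
    apply mul_le_mul_of_nonneg_right _ hNm
    have := hδ2 m l
    linarith
  have hsize : ∀ (w : Finset (Fin s)) (A : Finset (Fin (N m))), w.card = r → A ⊆ W (x m) w →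
      ((W (x m) w \ A).card : ℝ) ≤ g / 2 * N m → (N m : ℝ) ≤ α * A.card := by
    intro w A hw hAw hA
    have h1 : ∀ i : Fin s, (N m : ℝ) / s - g / (2 * r) * N m ≤ (W (x m) {i}).card := by
      intro i
      have h2 := (hx m).bal i
      have h3 : (N m : ℝ) ≤ s * ((W (x m) {i}).card + (⌊g / (2 * r) * N m⌋₊ : ℝ)) := by exact_mod_cast h2
      have h4 : (⌊g / (2 * r) * N m⌋₊ : ℝ) ≤ g / (2 * r) * N m := Nat.floor_le (by positivity)
      have h5 : (N m : ℝ) / s ≤ (W (x m) {i}).card + (⌊g / (2 * r) * N m⌋₊ : ℝ) := by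
        rw [div_le_iff₀ hsR]; linarith
      linarith
    have h2 : r * ((N m : ℝ) / s - g / (2 * r) * N m) ≤ ((W (x m) w).card : ℝ) := by
      rw [W_card]
      push_cast
      rw [← hw, ← nsmul_eq_mul]
      apply Finset.card_nsmul_le_sum
      intro i _
      rw [hw]
      exact h1 i
    have h3 : ((W (x m) w).card : ℝ) = (W (x m) w \ A).card + A.card := by
      have := Finset.card_sdiff_add_card_eq_card hAw
      exact_mod_cast this.symm
    have h4 : r * ((N m : ℝ) / s - g / (2 * r) * N m) = (r / s - g / 2) * N m := by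
      field_simp
    have h5 : (r / s - g) * N m ≤ A.card := by
      rw [h4] at h2
      linarith
    have h6 : r / s - g = 1 / α := by rw [hg]; ring
    rw [h6] at h5
    have h7 : α * (1 / α * N m) ≤ α * A.card := mul_le_mul_of_nonneg_left h5 hαpos.le
    have h8 : α * (1 / α * N m) = N m := by field_simp
    linarith
  have hdisj : ∀ p ∈ L, Disjoint (p.2 m) C := by
    intro p hp
    exact Finset.disjoint_of_subset_left (hm2 p hp).1
      (Finset.disjoint_of_subset_right hC2 (W_disj (x m) (hL2 p hp).1.2))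
  refine hχ m a (L.map (fun p => p.2 m) ++ [C]) ?_ ?_ ?_
  · rw [List.length_append, List.length_map, hL1]; rfl
  · intro A hA
    rcases List.mem_append.mp hA with hA | hA
    · obtain ⟨p, hp, rfl⟩ := List.mem_map.mp hA
      exact hsize p.1 _ (hL2 p hp).1.1 (hm2 p hp).1 (hm2 p hp).2
    · rw [List.mem_singleton] at hA
      rw [hA]
      exact hsize y C hyc hC2 hC3'
  · rw [List.pairwise_append]
    refine ⟨?_, List.pairwise_singleton _ _, ?_⟩
    · rw [List.pairwise_map]
      refine hm3.imp_of_mem ?_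
      intro p q hp hq hpq
      exact ⟨Finset.disjoint_of_subset_left (hm2 p hp).1
        (Finset.disjoint_of_subset_right (hm2 q hq).1 (W_disj (x m) hpq.1)), hpq.2⟩
    · intro A hA B hB
      obtain ⟨p, hp, rfl⟩ := List.mem_map.mp hA
      rw [List.mem_singleton] at hB
      subst hB
      exact ⟨hdisj p hp, hC1' p hp⟩

end Pool.Agent.H179_KR
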