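import Pool.Agent.H179_KR.Macro

/-! Vertex-Ramsey property of Kneser systems, and iterated richness. -/

namespace Pool.Agent.H179_KR

open Finset

attribute [local instance] Classical.propDecidable

/-- `class a` survives at the blocks `w` after deleting any `e` points -/
def Lg {N s : ℕ} {τ : Type} (f : Finset (Fin N) → τ) (r₁ : ℕ) (x : Fin N → Fin s)
    (w : Finset (Fin s)) (e : ℕ) (a : τ) : Prop :=
  ∀ E : Finset (Fin N), E.card ≤ e → ∃ A : Finset (Fin N), A.card = r₁ ∧ A ⊆ W x w ∧ Disjoint A E ∧ f A = a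

lemma cnt_false {α : Type*} [Fintype α] (P : α → Prop) (h : ∀ x, ¬ P x) : cnt P = 0 := by
  unfold cnt
  rw [Finset.card_eq_zero, Finset.filter_eq_empty_iff]
  intro x _; exact h x

lemma Lg_conc {N s : ℕ} {τ : Type} (f : Finset (Fin N) → τ) (r₁ : ℕ) (hN : 0 < N) (t : ℕ)
    (w w' : Finset (Fin s)) (a : τ) :
    (cnt (fun x : Fin N → Fin s => (w.card = w'.card ∧ Lg f r₁ x w (2 * t) a) ∧ ¬ Lg f r₁ x w' t a) : ℝ)
      ≤ (s : ℝ) ^ N * Real.exp (-((t : ℝ) ^ 2 / (2 * N))) := by
  by_cases hc : w.card = w'.card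
  · obtain ⟨σ, h1, h2, _⟩ := exists_inv w w' hc
    refine swap_conc' N s t hN σ h1 (fun x => w.card = w'.card ∧ Lg f r₁ x w (2 * t) a)
      (fun x => Lg f r₁ x w' t a) ?_
    intro x x' _ hd hP
    have hP' : Lg f r₁ (σ ∘ x) w (2 * t) a := hP.2
    intro E hE
    have hd2 := W_sdiff_card x x' w' t hd
    obtain ⟨A, hA1, hA2, hA3, hA4⟩ := hP' (E ∪ (W x w' \ W x' w')) (by
      refine (Finset.card_union_le _ _).trans ?_
      omega)
    rw [W_comp x σ h2] at hA2
    refine ⟨A, hA1, ?_, ?_, hA4⟩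
    · intro i hi
      by_contra hni
      have : i ∈ W x w' \ W x' w' := by
        rw [mem_sdiff]; exact ⟨hA2 hi, hni⟩
      exact (Finset.disjoint_left.mp hA3 hi) (mem_union_right _ this)
    · exact Finset.disjoint_of_subset_right subset_union_left hA3
  · rw [cnt_false _ (fun x hx => hc hx.1.1)]
    simp only [Nat.cast_zero]
    positivity

lemma exists_M (K : ℝ) (c : ℝ) (hc : 0 < c) : ∃ M₀ : ℕ, ∀ M : ℕ, M₀ ≤ M → K * Real.exp (-(c * M)) < 1 := by
  obtain ⟨M₀, hM₀⟩ := exists_nat_gt (K / c)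
  refine ⟨M₀, ?_⟩
  intro M hM
  have h1 : K / c < M := lt_of_lt_of_le hM₀ (by exact_mod_cast hM)
  have h2 : K < c * M := by
    rw [div_lt_iff₀ hc] at h1; linarith
  have h3 : c * M + 1 ≤ Real.exp (c * M) := Real.add_one_le_exp _
  rw [Real.exp_neg, ← div_eq_mul_inv, div_lt_one (Real.exp_pos _)]
  linarith

theorem hvr (τ : Type) [Fintype τ] [Nonempty τ] (s r : ℕ) (hr : 0 < r) (hrs : r ≤ s) (ρ : ℝ)
    (hρ : (s : ℝ) < ρ * r) :
    ∃ N r₁ : ℕ, 0 < r₁ ∧ (N : ℝ) < ρ * r₁ ∧ ∀ f : Finset (Fin N) → τ,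
      ∃ (φ : Finset (Fin s) → Finset (Fin N)) (a : τ),
        (∀ w, w.card = r → (φ w).card = r₁ ∧ f (φ w) = a) ∧
        (∀ w w', Disjoint w w' → Disjoint (φ w) (φ w')) := by
  have hs : 0 < s := lt_of_lt_of_le hr hrs
  set q := Fintype.card τ with hq
  -- choose D
  have hpos : 0 < ρ * r - s := by linarith
  obtain ⟨D₀, hD₀⟩ := exists_nat_gt (|ρ| * (r + 2 * q) / (ρ * r - s))
  set D := D₀ + 2 * q + 2 with hD
  have hρpos : 0 < ρ := by
    by_contra h
    push Not at h
    have h1 : (0 : ℝ) ≤ s := by positivity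
    have h2 : (0 : ℝ) ≤ r := by positivity
    nlinarith
  have hDq : 2 * q < r * (D - 1) := by
    have : D - 1 ≤ r * (D - 1) := Nat.le_mul_of_pos_left _ hr
    omega
  set R1 := r * (D - 1) - 2 * q with hR1
  have hR1pos : 0 < R1 := by omega
  have hR1r : (R1 : ℝ) = r * (D - 1) - 2 * q := by
    rw [hR1, Nat.cast_sub hDq.le, Nat.cast_mul, Nat.cast_sub (by omega)]
    push_cast; ring
  have hratio : (s : ℝ) * D < ρ * R1 := by
    rw [hR1r]
    have h1 : |ρ| * (r + 2 * q) / (ρ * r - s) < D := lt_of_lt_of_le hD₀ (by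
      rw [hD]; push_cast
      have : (0 : ℝ) ≤ q := by positivity
      linarith)
    rw [div_lt_iff₀ hpos, abs_of_pos hρpos] at h1
    nlinarith
  set ι := (Fin s × Fin s) ⊕ (Finset (Fin s) × Finset (Fin s) × τ) with hι
  obtain ⟨M₀, hM₀⟩ := exists_M (Fintype.card ι : ℝ) (1 / (2 * s * D)) (by
    have : (0 : ℝ) < D := by
      have : 0 < D := by omega
      exact_mod_cast this
    have hs' : (0 : ℝ) < s := by exact_mod_cast hs
    positivity)
  set M := M₀ + 1 with hM
  have hMb := hM₀ M (by omega)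
  refine ⟨M * s * D, M * R1, by positivity, ?_, ?_⟩
  · have hMp : (0 : ℝ) < M := by
      have : 0 < M := by omega
      exact_mod_cast this
    push_cast
    calc (M : ℝ) * s * D = M * (s * D) := by ring
      _ < M * (ρ * R1) := by apply mul_lt_mul_of_pos_left hratio hMp
      _ = ρ * (M * R1) := by ring
  · intro f
    have hNpos : 0 < M * s * D := by
      have h1 : 0 < M := by omega
      have h2 : 0 < D := by omega
      positivity
    let Bad : ι → (Fin (M * s * D) → Fin s) → Prop := fun i =>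
      match i with
      | Sum.inl (i, i') => fun x => (M * s * D) ≤ s * (W x {i}).card ∧ ¬ (M * s * D) ≤ s * ((W x {i'}).card + M)
      | Sum.inr (w, w', a) => fun x => (w.card = w'.card ∧ Lg f (M * R1) x w (2 * M) a) ∧ ¬ Lg f (M * R1) x w' M a
    have hexp : (1 / (2 * s * D) * (M : ℝ)) = (M : ℝ) ^ 2 / (2 * ((M * s * D : ℕ) : ℝ)) := by
      have h1 : (0 : ℝ) < M := by
        have : 0 < M := by omega
        exact_mod_cast this
      push_cast
      field_simp
    obtain ⟨x, hx⟩ := exists_good hs Bad (Real.exp (-((M : ℝ) ^ 2 / (2 * ((M * s * D : ℕ) : ℝ))))) (by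
        rw [← hexp]; exact hMb) (by
        rintro (⟨i, i'⟩ | ⟨w, w', a⟩)
        · exact block_conc (M * s * D) s M hNpos i i'
        · exact Lg_conc f (M * R1) hNpos M w w' a)
    obtain ⟨i0, hi0⟩ := exists_big_block hs x
    have hblocks : ∀ i : Fin s, M * (D - 1) ≤ (W x {i}).card := by
      intro i
      have h1 := hx (Sum.inl (i0, i))
      have h2 : (M * s * D) ≤ s * ((W x {i}).card + M) := by
        by_contra h3
        exact h1 ⟨hi0, h3⟩
      have h3 : s * (M * D) ≤ s * ((W x {i}).card + M) := by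
        calc s * (M * D) = M * s * D := by ring
          _ ≤ _ := h2
      have h4 := Nat.le_of_mul_le_mul_left h3 hs
      have h5 : M * D = M * (D - 1) + M := by
        have : D = (D - 1) + 1 := by omega
        conv_lhs => rw [this]
        ring
      omega
    have hWc : ∀ w : Finset (Fin s), w.card = r → r * (M * (D - 1)) ≤ (W x w).card := by
      intro w hw
      rw [W_card, ← hw, ← smul_eq_mul]
      exact Finset.card_nsmul_le_sum _ _ _ (fun i _ => hblocks i)
    obtain ⟨w0, _, hw0⟩ := Finset.exists_subset_card_eq (s := (univ : Finset (Fin s))) (n := r) (by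
      simpa using hrs)
    have hex : ∃ a : τ, Lg f (M * R1) x w0 (2 * M) a := by
      by_contra hcon
      push Not at hcon
      unfold Lg at hcon
      push Not at hcon
      choose E hE1 hE2 using hcon
      set U := univ.biUnion E with hU
      have hUc : U.card ≤ q * (2 * M) := by
        refine Finset.card_biUnion_le.trans ?_
        calc ∑ a : τ, (E a).card ≤ ∑ _a : τ, 2 * M := Finset.sum_le_sum (fun a _ => hE1 a)
          _ = q * (2 * M) := by rw [Finset.sum_const, Finset.card_univ, smul_eq_mul]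
      have h1 := hWc w0 hw0
      have h2 : M * R1 ≤ (W x w0 \ U).card := by
        have h3 := Finset.le_card_sdiff U (W x w0)
        have h4 : M * R1 + q * (2 * M) = r * (M * (D - 1)) := by
          have : R1 + 2 * q = r * (D - 1) := by omega
          calc M * R1 + q * (2 * M) = M * (R1 + 2 * q) := by ring
            _ = M * (r * (D - 1)) := by rw [this]
            _ = _ := by ring
        omega
      obtain ⟨A, hA1, hA2⟩ := Finset.exists_subset_card_eq h2
      refine hE2 (f A) A hA2 (hA1.trans sdiff_subset) ?_ rfl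
      rw [Finset.disjoint_left]
      intro i hi hi2
      have := hA1 hi
      rw [mem_sdiff] at this
      exact this.2 (mem_biUnion.mpr ⟨f A, mem_univ _, hi2⟩)
    obtain ⟨a, ha⟩ := hex
    have hall : ∀ w : Finset (Fin s), w.card = r → Lg f (M * R1) x w M a := by
      intro w hw
      have h1 := hx (Sum.inr (w0, w, a))
      by_contra h2
      exact h1 ⟨⟨by rw [hw0, hw], ha⟩, h2⟩
    have hall' : ∀ w : Finset (Fin s), ∃ A : Finset (Fin (M * s * D)), A ⊆ W x w ∧
        (w.card = r → A.card = M * R1 ∧ f A = a) := by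
      intro w
      by_cases hw : w.card = r
      · obtain ⟨A, h1, h2, _, h4⟩ := hall w hw ∅ (by simp)
        exact ⟨A, h2, fun _ => ⟨h1, h4⟩⟩
      · exact ⟨∅, by simp, fun h => absurd h hw⟩
    choose φ hφ1 hφ2 using hall'
    refine ⟨φ, a, hφ2, ?_⟩
    intro w w' hww
    exact Finset.disjoint_of_subset_left (hφ1 w) (Finset.disjoint_of_subset_right (hφ1 w') (W_disj x hww))

/-- iterated richness of a family of sets -/
def Rich (τ : Type) {s : ℕ} : ℕ → Set (Finset (Fin s)) → Prop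
  | 0, _ => True
  | (m + 1), R => ∀ f : Finset (Fin s) → τ, ∃ v ∈ R, Rich τ m {w | w ∈ R ∧ Disjoint w v ∧ f w = f v}

lemma Rich.map {τ : Type} {s s' : ℕ} (φ : Finset (Fin s) → Finset (Fin s')) : ∀ (m : ℕ)
    (R : Set (Finset (Fin s))) (R' : Set (Finset (Fin s'))), (∀ w ∈ R, φ w ∈ R') →
    (∀ w ∈ R, ∀ w' ∈ R, Disjoint w w' → Disjoint (φ w) (φ w')) → Rich τ m R → Rich τ m R' := by
  intro m
  induction m with
  | zero => intro _ _ _ _ _; trivial
  | succ m ih =>
    intro R R' h1 h2 hR f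
    obtain ⟨v, hv, hvR⟩ := hR (fun w => f (φ w))
    refine ⟨φ v, h1 v hv, ?_⟩
    refine ih _ _ ?_ ?_ hvR
    · rintro w ⟨hw1, hw2, hw3⟩
      exact ⟨h1 w hw1, h2 w hw1 v hv hw2, hw3⟩
    · rintro w ⟨hw1, _, _⟩ w' ⟨hw1', _, _⟩ hww
      exact h2 w hw1 w' hw1' hww

theorem rich_exists (τ : Type) [Fintype τ] [Nonempty τ] : ∀ (m : ℕ) (ρ : ℝ), (m : ℝ) < ρ →
    ∃ s r : ℕ, 0 < r ∧ (s : ℝ) < ρ * r ∧ Rich τ m {w : Finset (Fin s) | w.card = r} := by
  intro m
  induction m with
  | zero =>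
    intro ρ hρ
    refine ⟨0, 1, by norm_num, ?_, trivial⟩
    simpa using hρ
  | succ m ih =>
    intro ρ hρ
    push_cast at hρ
    obtain ⟨s₀, r₀, hr₀, hs₀, hR₀⟩ := ih (ρ - 1) (by linarith)
    obtain ⟨N, r₁, hr₁, hN, hf⟩ := hvr τ (s₀ + r₀) r₀ hr₀ (by omega) ρ (by push_cast; linarith)
    refine ⟨N, r₁, hr₁, hN, ?_⟩
    intro f
    obtain ⟨φ, a, hφ1, hφ2⟩ := hf f
    set w0 : Finset (Fin (s₀ + r₀)) := univ.map (Fin.natAddEmb s₀) with hw0
    have hw0c : w0.card = r₀ := by simp [hw0]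
    refine ⟨φ w0, (hφ1 w0 hw0c).1, ?_⟩
    let ψ : Finset (Fin s₀) → Finset (Fin (s₀ + r₀)) := fun w => w.map (Fin.castAddEmb r₀)
    have hψc : ∀ w, (ψ w).card = w.card := fun w => by simp [ψ]
    have hψ0 : ∀ w, Disjoint (ψ w) w0 := by
      intro w
      rw [Finset.disjoint_left]
      intro i hi hi'
      simp only [ψ, mem_map, hw0, mem_univ, true_and] at hi hi'
      obtain ⟨j, _, hj⟩ := hi
      obtain ⟨j', hj'⟩ := hi'
      have h1 : (i : ℕ) = j := by rw [← hj]; rfl
      have h2 : (i : ℕ) = s₀ + j' := by rw [← hj']; rfl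
      omega
    refine Rich.map (fun w => φ (ψ w)) m {w | w.card = r₀} _ ?_ ?_ hR₀
    · intro w hw
      have hw' : (ψ w).card = r₀ := by rw [hψc]; exact hw
      refine ⟨(hφ1 _ hw').1, hφ2 _ _ (hψ0 w), ?_⟩
      rw [(hφ1 _ hw').2, (hφ1 _ hw0c).2]
    · intro w _ w' _ hww
      apply hφ2
      simp only [ψ]
      rwa [Finset.disjoint_map]

end Pool.Agent.H179_KR
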